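import Pool.Agent.H853.BL.Fin

/-!
# Congruent representations over local rings
-/

set_option autoImplicit false

namespace Pool.Agent.H853.BL

open Module Polynomial Pool.Agent.H853.RU Matrix IsLocalRing

theorem bc_JJ_pow {A A' : Type*} [CommRing A] [CommRing A'] {n : ℕ} {ι : Type*} {d : ι → ℕ}
    {Γ : Type*} [Group Γ] {π : Subgroup Γ} {ρ : Γ →* (Mt n A)ˣ} {L : ∀ i, Γ →* (Mt (d i) A)ˣ}
    (f : A →+* A') (r : ℕ) : ∀ z ∈ JJ π ρ L ^ r,
      z.map f ∈ JJ π (rb f ρ) (fun i => rb f (L i)) ^ r := by
  induction r with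
  | zero =>
    intro z hz
    rw [pow_zero, Submodule.mem_one] at hz
    obtain ⟨a, rfl⟩ := hz
    rw [pow_zero, Submodule.mem_one]
    refine ⟨f a, ?_⟩
    ext u v
    rw [Matrix.map_apply, Matrix.algebraMap_matrix_apply, Matrix.algebraMap_matrix_apply]
    split_ifs
    · rfl
    · exact (map_zero _).symm
  | succ r ih =>
    intro z hz
    rw [pow_succ] at hz ⊢
    refine Submodule.mul_induction_on hz (fun y hy x hx => ?_) fun y y' hy hy' => ?_
    · rw [Matrix.map_mul]
      exact Submodule.mul_mem_mul (ih y hy) (bc_JJ _ hx)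
    · rw [Matrix.map_add _ (map_add _)]
      exact Submodule.add_mem _ hy hy'

variable {A : Type*} [CommRing A] [IsLocalRing A] [IsNoetherianRing A] [Finite (ResidueField A)]
  {n : ℕ} {ι : Type*} [Finite ι] {d : ι → ℕ} {Γ : Type*} [Group Γ]

/-- Congruent representations over local rings. -/
theorem adic (K : Type*) [Field K] [IsAlgClosed K] [Algebra (ResidueField A) K]
    (π : Subgroup Γ) [hπ : π.Normal] (ρ : Γ →* (Mt n A)ˣ) (L : ∀ i, Γ →* (Mt (d i) A)ˣ) (F : Γ)
    (hL : ∀ y : EL d (ResidueField A), y ∈ Submodule.span (ResidueField A)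
      (Set.range fun g : π =>
        ((fun i => (L i g : Mt (d i) A).map (residue A)) : EL d (ResidueField A))))
    {t : ℕ} {W : ℕ → Submodule (ResidueField A) (Fin n → ResidueField A)}
    (hW : Chain (residue A) π ρ L t W) (S : Set K)
    (hS : ∀ (k : ℕ) (s : K) (i j : ι) (a : π → Matrix (Fin (d i)) (Fin (d j)) K)
      (m : Matrix (Fin (d i)) (Fin (d j)) K),
      Wt ((algebraMap (ResidueField A) K).comp (residue A)) (maximalIdeal A ^ k) π ρ L F s i j a m →
        s ∈ S)
    (hprod : ∀ l : List K, l ≠ [] → l.length ≤ n → (∀ s ∈ l, s ∈ S) → l.prod ≠ 1) :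
    JJ π ρ L ^ n = ⊥ := by
  classical
  rw [eq_bot_iff]
  intro z hz
  have key : ∀ (k : ℕ) i j, z i j ∈ maximalIdeal A ^ (k + 1) := by
    intro k
    let J : Ideal A := maximalIdeal A ^ (k + 1)
    have hJ : ∀ a ∈ J, residue A a = 0 := fun a ha =>
      (residue_eq_zero_iff a).2 (Ideal.pow_le_self (Nat.succ_ne_zero k) ha)
    let res : A ⧸ J →+* ResidueField A := Ideal.Quotient.lift J (residue A) hJ
    have hres : ∀ a, res (Ideal.Quotient.mk J a) = residue A a := fun a => rfl
    have hres' : Function.Surjective res := by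
      intro x
      obtain ⟨a, rfl⟩ := residue_surjective x
      exact ⟨Ideal.Quotient.mk J a, rfl⟩
    have hker : RingHom.ker res ^ (k + 1) = ⊥ := by
      have h1 : RingHom.ker res ≤ (maximalIdeal A).map (Ideal.Quotient.mk J) := by
        intro x hx
        obtain ⟨a, rfl⟩ := Ideal.Quotient.mk_surjective x
        rw [RingHom.mem_ker, hres, residue_eq_zero_iff] at hx
        exact Ideal.mem_map_of_mem _ hx
      rw [eq_bot_iff]
      refine (Ideal.pow_right_mono h1 _).trans ?_
      rw [← Ideal.map_pow]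
      exact (Ideal.map_quotient_self J).le
    have h1 := fin_level K res hres' hker π (rb (Ideal.Quotient.mk J) ρ)
      (fun i => rb (Ideal.Quotient.mk J) (L i)) F hL (t := t) (W := W) hW S
      (fun s i j a m hw => by
        refine hS (k + 1) s i j a m ⟨hw.mul, ?_, hw.eig, hw.ne⟩
        intro g hg hg'
        refine hw.near g (fun x y => ?_) fun r x y => ?_
        · have h2 : Ideal.Quotient.mk J ((ρ g : Mt n A) x y) =
              Ideal.Quotient.mk J ((1 : Mt n A) x y) := Ideal.Quotient.eq.2 (hg x y)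
          change Ideal.Quotient.mk J ((ρ g : Mt n A) x y) - (1 : Mt n (A ⧸ J)) x y ∈ _
          rw [h2, Ideal.mem_bot, sub_eq_zero, Matrix.one_apply, Matrix.one_apply]
          split_ifs
          · exact map_one _
          · exact map_zero _
        · have h2 : Ideal.Quotient.mk J ((L r g : Mt (d r) A) x y) =
              Ideal.Quotient.mk J ((1 : Mt (d r) A) x y) := Ideal.Quotient.eq.2 (hg' r x y)
          change Ideal.Quotient.mk J ((L r g : Mt (d r) A) x y) - (1 : Mt (d r) (A ⧸ J)) x y ∈ _
          rw [h2, Ideal.mem_bot, sub_eq_zero, Matrix.one_apply, Matrix.one_apply]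
          split_ifs
          · exact map_one _
          · exact map_zero _) hprod
    intro i j
    have h2 := bc_JJ_pow (Ideal.Quotient.mk J) n z hz
    rw [h1, Submodule.mem_bot] at h2
    have h3 := congrFun (congrFun h2 i) j
    exact Ideal.Quotient.eq_zero_iff_mem.1 h3
  rw [Submodule.mem_bot]
  ext i j
  have h1 : z i j ∈ (⨅ k : ℕ, maximalIdeal A ^ k) := by
    rw [Ideal.mem_iInf]
    intro k
    exact Ideal.pow_le_pow_right (Nat.le_succ k) (key k i j)
  rw [Ideal.iInf_pow_eq_bot_of_isLocalRing _ (maximalIdeal.isMaximal A).ne_top] at h1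
  exact h1

end Pool.Agent.H853.BL
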