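import Pool.Agent.H853.RU.Fil
import Pool.Agent.H853.RU.Ext

/-!
# The algebra generated by a representation and a family of representations
-/

set_option autoImplicit false

namespace Pool.Agent.H853.BL

open Module Polynomial Pool.Agent.H853.RU

variable {A : Type*} [CommRing A] {n : ℕ} {ι : Type*} {d : ι → ℕ} {Γ : Type*} [Group Γ]

/-- matrices -/
abbrev Mt (n : ℕ) (A : Type*) : Type _ := Matrix (Fin n) (Fin n) A

/-- the product of the matrix algebras -/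
abbrev EL (d : ι → ℕ) (A : Type*) : Type _ := ∀ i, Mt (d i) A

/-- the pair `(ρ g, (L_i g)_i)` -/
def pair (ρ : Γ →* (Mt n A)ˣ) (L : ∀ i, Γ →* (Mt (d i) A)ˣ) (g : Γ) : Mt n A × EL d A :=
  ((ρ g : Mt n A), fun i => (L i g : Mt (d i) A))

theorem pair_mul (ρ : Γ →* (Mt n A)ˣ) (L : ∀ i, Γ →* (Mt (d i) A)ˣ) (g h : Γ) :
    pair ρ L (g * h) = pair ρ L g * pair ρ L h := by
  refine Prod.ext ?_ ?_
  · change ((ρ (g * h) : (Mt n A)ˣ) : Mt n A) = _
    rw [map_mul, Units.val_mul]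
    rfl
  · funext i
    change ((L i (g * h) : (Mt (d i) A)ˣ) : Mt (d i) A) = _
    rw [map_mul, Units.val_mul]
    rfl

theorem pair_one (ρ : Γ →* (Mt n A)ˣ) (L : ∀ i, Γ →* (Mt (d i) A)ˣ) : pair ρ L 1 = 1 := by
  refine Prod.ext ?_ ?_
  · change ((ρ 1 : (Mt n A)ˣ) : Mt n A) = _
    rw [map_one, Units.val_one]
    rfl
  · funext i
    change ((L i 1 : (Mt (d i) A)ˣ) : Mt (d i) A) = _
    rw [map_one, Units.val_one]
    rfl

/-- the span of the pairs -/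
def BB (π : Subgroup Γ) (ρ : Γ →* (Mt n A)ˣ) (L : ∀ i, Γ →* (Mt (d i) A)ˣ) :
    Submodule A (Mt n A × EL d A) :=
  Submodule.span A (Set.range fun g : π => pair ρ L g)

/-- the matrices `x` with `(x, 0)` in the algebra -/
def JJ (π : Subgroup Γ) (ρ : Γ →* (Mt n A)ˣ) (L : ∀ i, Γ →* (Mt (d i) A)ˣ) :
    Submodule A (Mt n A) :=
  (BB π ρ L).comap (LinearMap.inl A (Mt n A) (EL d A))

variable {π : Subgroup Γ} {ρ : Γ →* (Mt n A)ˣ} {L : ∀ i, Γ →* (Mt (d i) A)ˣ}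

theorem mem_JJ {x : Mt n A} : x ∈ JJ π ρ L ↔ ((x, 0) : Mt n A × EL d A) ∈ BB π ρ L := Iff.rfl

theorem pair_mem (g : π) : pair ρ L g ∈ BB π ρ L := Submodule.subset_span ⟨g, rfl⟩

theorem one_mem : (1 : Mt n A × EL d A) ∈ BB π ρ L := by
  rw [← pair_one ρ L]
  exact pair_mem (1 : π)

theorem mul_mem {b c : Mt n A × EL d A} (hb : b ∈ BB π ρ L) (hc : c ∈ BB π ρ L) :
    b * c ∈ BB π ρ L := by
  have h1 : BB π ρ L * BB π ρ L ≤ BB π ρ L := by
    unfold BB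
    rw [Submodule.span_mul_span, Submodule.span_le]
    rintro _ ⟨_, ⟨g, rfl⟩, _, ⟨h, rfl⟩, rfl⟩
    change pair ρ L g * pair ρ L h ∈ _
    rw [← pair_mul]
    exact pair_mem (g * h)
  exact h1 (Submodule.mul_mem_mul hb hc)

theorem pow_mem {b : Mt n A × EL d A} (hb : b ∈ BB π ρ L) (k : ℕ) : b ^ k ∈ BB π ρ L := by
  induction k with
  | zero => rw [pow_zero]; exact one_mem
  | succ k ih => rw [pow_succ]; exact mul_mem ih hb

theorem mul_JJ {b : Mt n A × EL d A} (hb : b ∈ BB π ρ L) {x : Mt n A} (hx : x ∈ JJ π ρ L) :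
    b.1 * x ∈ JJ π ρ L := by
  have h1 := mul_mem hb (mem_JJ.1 hx)
  have h2 : b * (x, 0) = (b.1 * x, 0) := Prod.ext rfl (mul_zero b.2)
  rw [h2] at h1
  exact mem_JJ.2 h1

theorem JJ_mul {b : Mt n A × EL d A} (hb : b ∈ BB π ρ L) {x : Mt n A} (hx : x ∈ JJ π ρ L) :
    x * b.1 ∈ JJ π ρ L := by
  have h1 := mul_mem (mem_JJ.1 hx) hb
  have h2 : (x, 0) * b = (x * b.1, 0) := Prod.ext rfl (zero_mul b.2)
  rw [h2] at h1
  exact mem_JJ.2 h1

theorem JJ_JJ : JJ π ρ L * JJ π ρ L ≤ JJ π ρ L := by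
  rw [Submodule.mul_le]
  intro x hx y hy
  exact mul_JJ (mem_JJ.1 hx) hy

/-- two elements of the algebra with the same second component -/
theorem sub_JJ {b c : Mt n A × EL d A} (hb : b ∈ BB π ρ L) (hc : c ∈ BB π ρ L)
    (h : b.2 = c.2) : b.1 - c.1 ∈ JJ π ρ L := by
  have h1 := Submodule.sub_mem _ hb hc
  have h2 : b - c = (b.1 - c.1, 0) := Prod.ext rfl (by
    change b.2 - c.2 = 0
    rw [h, sub_self])
  rw [h2] at h1
  exact mem_JJ.2 h1

theorem conj_mem [hπ : π.Normal] (F : Γ) {b : Mt n A × EL d A} (hb : b ∈ BB π ρ L) :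
    pair ρ L F * b * pair ρ L F⁻¹ ∈ BB π ρ L := by
  unfold BB at hb
  induction hb using Submodule.span_induction with
  | mem x hx =>
    obtain ⟨g, rfl⟩ := hx
    change pair ρ L F * pair ρ L g * pair ρ L F⁻¹ ∈ _
    rw [← pair_mul, ← pair_mul]
    exact pair_mem (⟨_, hπ.conj_mem g g.2 F⟩ : π)
  | zero => rw [mul_zero, zero_mul]; exact Submodule.zero_mem _
  | add x y _ _ hx hy => rw [mul_add, add_mul]; exact Submodule.add_mem _ hx hy
  | smul a x _ hx => rw [mul_smul_comm, smul_mul_assoc]; exact Submodule.smul_mem _ _ hx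

/-- lifts of invertible elements are invertible -/
theorem exists_inv {M : ℕ} (hnil : ∀ x ∈ JJ π ρ L, x ^ M = 0) {γ γ' : Mt n A × EL d A}
    (hγ : γ ∈ BB π ρ L) (hγ' : γ' ∈ BB π ρ L) (h1 : γ.2 * γ'.2 = 1) (h2 : γ'.2 * γ.2 = 1) :
    ∃ γi ∈ BB π ρ L, γ * γi = 1 ∧ γi * γ = 1 := by
  have key : ∀ b c : Mt n A × EL d A, b ∈ BB π ρ L → c ∈ BB π ρ L → b.2 * c.2 = 1 →
      ∃ w ∈ BB π ρ L, b * c * w = 1 ∧ w * (b * c) = 1 := by
    intro b c hb hc hbc
    set z : Mt n A × EL d A := 1 - b * c with hz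
    have hzB : z ∈ BB π ρ L := Submodule.sub_mem _ one_mem (mul_mem hb hc)
    have hz2 : z = (z.1, 0) := Prod.ext rfl (by
      change 1 - b.2 * c.2 = 0
      rw [hbc, sub_self])
    have hz1 : z.1 ∈ JJ π ρ L := by
      rw [hz2] at hzB
      exact mem_JJ.2 hzB
    have hzM : z ^ (M + 1) = 0 := by
      refine Prod.ext ?_ ?_
      · change z.1 ^ (M + 1) = 0
        rw [pow_succ, hnil _ hz1, zero_mul]
      · have h3 : z.2 = 0 := by
          rw [hz2]
        change z.2 ^ (M + 1) = 0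
        rw [h3, zero_pow (Nat.succ_ne_zero M)]
    refine ⟨∑ k ∈ Finset.range (M + 1), z ^ k, Submodule.sum_mem _ fun k _ => pow_mem hzB k, ?_, ?_⟩
    · have h3 := mul_neg_geom_sum z (M + 1)
      rw [hzM, sub_zero] at h3
      have h4 : 1 - z = b * c := by rw [hz, sub_sub_cancel]
      rw [h4] at h3
      exact h3
    · have h3 := geom_sum_mul_neg z (M + 1)
      rw [hzM, sub_zero] at h3
      have h4 : 1 - z = b * c := by rw [hz, sub_sub_cancel]
      rw [h4] at h3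
      exact h3
  obtain ⟨w, hw, hw1, -⟩ := key γ γ' hγ hγ' h1
  obtain ⟨w', hw', -, hw2⟩ := key γ' γ hγ' hγ h2
  have h3 : γ * (γ' * w) = 1 := by rw [← mul_assoc]; exact hw1
  have h4 : (w' * γ') * γ = 1 := by rw [mul_assoc]; exact hw2
  have h5 : w' * γ' = γ' * w := left_inv_eq_right_inv h4 h3
  exact ⟨γ' * w, mul_mem hγ' hw, h3, by rw [← h5]; exact h4⟩

end Pool.Agent.H853.BL
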