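import Pool.Agent.H853.BL.Fil

/-!
# Congruent representations: finite level
-/

set_option autoImplicit false

namespace Pool.Agent.H853.BL

open Module Polynomial Pool.Agent.H853.RU

/-- Extension of the residue field. -/
theorem exists_ext' {A κ : Type*} [CommRing A] [IsNoetherianRing A] [Field κ] [Finite κ]
    {res : A →+* κ} (hres : Function.Surjective res) {k : ℕ} (hk : RingHom.ker res ^ k = ⊥)
    (κ' : Type*) [Field κ'] [Algebra κ κ'] [FiniteDimensional κ κ'] :
    ∃ (P : A[X]) (res' : AdjoinRoot P →+* κ'), P.Monic ∧ Function.Surjective res' ∧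
      RingHom.ker res' ^ k = ⊥ ∧ Function.Injective (AdjoinRoot.of P) ∧
      ∀ a, res' (AdjoinRoot.of P a) = algebraMap κ κ' (res a) := by
  have : Nontrivial A := by
    refine ⟨1, 0, fun h => ?_⟩
    have h1 := congrArg res h
    rw [map_one, map_zero] at h1
    exact one_ne_zero h1
  have : PerfectField κ := inferInstance
  have : Algebra.IsSeparable κ κ' := inferInstance
  let pb := Field.powerBasisOfFiniteOfSeparable κ κ'
  set θ := pb.gen with hθ
  have hint : IsIntegral κ θ := pb.isIntegral_gen
  obtain ⟨P, hP1, hP2, hP3⟩ := Polynomial.lifts_and_natDegree_eq_and_monic (f := res)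
    ((Polynomial.mem_lifts _).2 (Polynomial.map_surjective res hres _)) (minpoly.monic hint)
  have hroot : P.eval₂ ((algebraMap κ κ').comp res) θ = 0 := by
    rw [← Polynomial.eval₂_map, hP1, ← aeval_def, minpoly.aeval]
  let res' : AdjoinRoot P →+* κ' := AdjoinRoot.lift ((algebraMap κ κ').comp res) θ hroot
  have hres' : ∀ Q : A[X], res' (AdjoinRoot.mk P Q) = aeval θ (Q.map res) := by
    intro Q
    rw [AdjoinRoot.lift_mk, ← Polynomial.eval₂_map, aeval_def]
  have hdeg : 0 < P.natDegree := by
    rw [hP2]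
    exact minpoly.natDegree_pos hint
  refine ⟨P, res', hP3, ?_, ?_, ?_, ?_⟩
  · intro y
    obtain ⟨Q, hQ⟩ := pb.exists_eq_aeval' y
    obtain ⟨Q', rfl⟩ := Polynomial.map_surjective res hres Q
    exact ⟨AdjoinRoot.mk P Q', by rw [hres', hQ]⟩
  · have h1 : RingHom.ker res' ≤ (RingHom.ker res).map (AdjoinRoot.of P) := by
      intro x hx
      obtain ⟨Q, rfl⟩ := AdjoinRoot.mk_surjective x
      have h2 : AdjoinRoot.mk P Q = AdjoinRoot.mk P (Q %ₘ P) := by
        rw [AdjoinRoot.mk_eq_mk]
        exact ⟨Q /ₘ P, by rw [sub_eq_iff_eq_add, add_comm, Polynomial.modByMonic_add_div]⟩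
      rw [h2, RingHom.mem_ker, hres'] at hx
      have h3 : (Q %ₘ P).map res = 0 := by
        by_contra hne
        have h4 := natDegree_le_natDegree (minpoly.degree_le_of_ne_zero κ θ hne hx)
        have h5 : (Q %ₘ P).natDegree < P.natDegree :=
          Polynomial.natDegree_modByMonic_lt Q hP3 (by
            intro h
            rw [h, natDegree_one] at hdeg
            exact lt_irrefl _ hdeg)
        have h6 := Polynomial.natDegree_map_le (f := res) (p := Q %ₘ P)
        rw [hP2] at h5
        omega
      have h4 : Q %ₘ P ∈ (RingHom.ker res).map (C : A →+* A[X]) := by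
        rw [Ideal.mem_map_C_iff]
        intro i
        rw [RingHom.mem_ker, ← Polynomial.coeff_map, h3, coeff_zero]
      rw [h2]
      have h5 := Ideal.mem_map_of_mem (AdjoinRoot.mk P) h4
      rw [Ideal.map_map] at h5
      exact h5
    rw [eq_bot_iff]
    refine (Ideal.pow_right_mono h1 k).trans ?_
    rw [← Ideal.map_pow, hk, Ideal.map_bot]
  · rw [injective_iff_map_eq_zero]
    intro a ha
    by_contra hne
    have h1 : P ∣ C a := AdjoinRoot.mk_eq_zero.1 ha
    refine hP3.not_dvd_of_natDegree_lt (C_ne_zero.2 hne) ?_ h1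
    rw [natDegree_C]
    exact hdeg
  · intro a
    exact AdjoinRoot.lift_of hroot

section bc

variable {A A' : Type*} [CommRing A] [CommRing A'] {n : ℕ} {ι : Type*} {d : ι → ℕ}
  {Γ : Type*} [Group Γ]

/-- base change of the representations -/
def rb (f : A →+* A') {r : ℕ} (ρ : Γ →* (Mt r A)ˣ) : Γ →* (Mt r A')ˣ :=
  (Units.map ((f.mapMatrix : Mt r A →+* Mt r A') : Mt r A →* Mt r A')).comp ρ

theorem rb_apply (f : A →+* A') {r : ℕ} (ρ : Γ →* (Mt r A)ˣ) (g : Γ) :
    (rb f ρ g : Mt r A') = (ρ g : Mt r A).map f := rfl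

/-- base change of the pairs -/
def bc (f : A →+* A') : (Mt n A × EL d A) →+* (Mt n A' × EL d A') where
  toFun z := (z.1.map f, fun i => (z.2 i).map f)
  map_one' := Prod.ext (Matrix.map_one _ (map_zero _) (map_one _))
    (funext fun i => Matrix.map_one _ (map_zero _) (map_one _))
  map_mul' x y := Prod.ext Matrix.map_mul (funext fun i => Matrix.map_mul)
  map_zero' := Prod.ext (Matrix.map_zero _ (map_zero _))
    (funext fun i => Matrix.map_zero _ (map_zero _))
  map_add' x y := Prod.ext (Matrix.map_add _ (map_add f) _ _)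
    (funext fun i => Matrix.map_add _ (map_add f) _ _)

theorem bc_pair (f : A →+* A') (ρ : Γ →* (Mt n A)ˣ) (L : ∀ i, Γ →* (Mt (d i) A)ˣ) (g : Γ) :
    bc f (pair ρ L g) = pair (rb f ρ) (fun i => rb f (L i)) g := rfl

variable {π : Subgroup Γ} {ρ : Γ →* (Mt n A)ˣ} {L : ∀ i, Γ →* (Mt (d i) A)ˣ}

theorem bc_mem (f : A →+* A') {z : Mt n A × EL d A} (hz : z ∈ BB π ρ L) :
    bc f z ∈ BB π (rb f ρ) (fun i => rb f (L i)) := by
  unfold BB at hz
  induction hz using Submodule.span_induction with
  | mem x hx =>
    obtain ⟨g, rfl⟩ := hx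
    exact pair_mem g
  | zero => rw [map_zero]; exact Submodule.zero_mem _
  | add x y _ _ hx hy => rw [map_add]; exact Submodule.add_mem _ hx hy
  | smul a x _ hx =>
    have h1 : bc f (a • x) = f a • bc f x := by
      refine Prod.ext ?_ ?_
      · ext u v
        exact map_mul f _ _
      · funext i
        ext u v
        exact map_mul f _ _
    rw [h1]
    exact Submodule.smul_mem _ _ hx

theorem bc_JJ (f : A →+* A') {x : Mt n A} (hx : x ∈ JJ π ρ L) :
    x.map f ∈ JJ π (rb f ρ) (fun i => rb f (L i)) := by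
  have h1 := bc_mem f (mem_JJ.1 hx)
  have h2 : bc f ((x, 0) : Mt n A × EL d A) = (x.map f, 0) :=
    Prod.ext rfl (funext fun i => Matrix.map_zero _ (map_zero _))
  rw [h2] at h1
  exact mem_JJ.2 h1

/-- The ideal after a free extension of the coefficients. -/
theorem JJ_ext [Algebra A A'] [Module.Free A A'] [Module.Finite A A'] {x : Mt n A'}
    (hx : x ∈ JJ π (rb (algebraMap A A') ρ) (fun i => rb (algebraMap A A') (L i))) :
    x ∈ Submodule.span A' ((fun y : Mt n A => y.map (algebraMap A A')) ''
      (JJ π ρ L : Set (Mt n A))) := by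
  classical
  have key : ∀ z ∈ BB π (rb (algebraMap A A') ρ) (fun i => rb (algebraMap A A') (L i)),
      ∀ φ : A' →ₗ[A] A, ((z.1.map φ, fun i => (z.2 i).map φ) : Mt n A × EL d A) ∈ BB π ρ L := by
    intro z hz
    unfold BB at hz
    induction hz using Submodule.span_induction with
    | mem x hx =>
      obtain ⟨g, rfl⟩ := hx
      intro φ
      have h1 : (((pair (rb (algebraMap A A') ρ) (fun i => rb (algebraMap A A') (L i)) g).1.map φ,
          fun i => ((pair (rb (algebraMap A A') ρ)
            (fun i => rb (algebraMap A A') (L i)) g).2 i).map φ) : Mt n A × EL d A) =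
          φ 1 • pair ρ L g := by
        refine Prod.ext ?_ ?_
        · ext u v
          change φ (algebraMap A A' ((ρ g : Mt n A) u v)) = φ 1 * (ρ g : Mt n A) u v
          rw [Algebra.algebraMap_eq_smul_one, map_smul, smul_eq_mul, mul_comm]
        · funext i
          ext u v
          change φ (algebraMap A A' ((L i g : Mt (d i) A) u v)) = φ 1 * (L i g : Mt (d i) A) u v
          rw [Algebra.algebraMap_eq_smul_one, map_smul, smul_eq_mul, mul_comm]
      rw [h1]
      exact Submodule.smul_mem _ _ (pair_mem g)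
    | zero =>
      intro φ
      have h1 : ((((0 : Mt n A' × EL d A').1).map φ,
          fun i => (((0 : Mt n A' × EL d A').2) i).map φ) : Mt n A × EL d A) = 0 :=
        Prod.ext (Matrix.map_zero _ (map_zero _)) (funext fun i => Matrix.map_zero _ (map_zero _))
      rw [h1]
      exact Submodule.zero_mem _
    | add x y _ _ hx hy =>
      intro φ
      have h1 : ((((x + y).1).map φ, fun i => ((x + y).2 i).map φ) : Mt n A × EL d A) =
          (x.1.map φ, fun i => (x.2 i).map φ) + (y.1.map φ, fun i => (y.2 i).map φ) :=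
        Prod.ext (Matrix.map_add _ (map_add φ) _ _)
          (funext fun i => Matrix.map_add _ (map_add φ) _ _)
      rw [h1]
      exact Submodule.add_mem _ (hx φ) (hy φ)
    | smul a x _ hx =>
      intro φ
      exact hx (φ.comp (LinearMap.mulLeft A a))
  let bs := Module.Free.chooseBasis A A'
  have h1 : x = ∑ e, bs e • (x.map (bs.coord e)).map (algebraMap A A') := by
    ext u v
    rw [Matrix.sum_apply]
    conv_lhs => rw [← bs.sum_repr (x u v)]
    refine Finset.sum_congr rfl fun e _ => ?_
    rw [Matrix.smul_apply, Matrix.map_apply, Matrix.map_apply, smul_eq_mul, Algebra.smul_def,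
      mul_comm]
    rfl
  rw [h1]
  refine Submodule.sum_mem _ fun e _ => Submodule.smul_mem _ _ (Submodule.subset_span ?_)
  refine ⟨x.map (bs.coord e), ?_, rfl⟩
  have h2 := key _ (mem_JJ.1 hx) (bs.coord e)
  have h3 : ((((x, (0 : EL d A')) : Mt n A' × EL d A').1.map (bs.coord e),
      fun i => (((x, (0 : EL d A')) : Mt n A' × EL d A').2 i).map (bs.coord e)) :
        Mt n A × EL d A) = (x.map (bs.coord e), 0) :=
    Prod.ext rfl (funext fun i => Matrix.map_zero _ (map_zero _))
  rw [h3] at h2
  exact mem_JJ.2 h2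

theorem JJ_pow_ext [Algebra A A'] [Module.Free A A'] [Module.Finite A A'] {N : ℕ}
    (hN : JJ π ρ L ^ N = ⊥) :
    JJ π (rb (algebraMap A A') ρ) (fun i => rb (algebraMap A A') (L i)) ^ N = ⊥ := by
  have h1 : JJ π (rb (algebraMap A A') ρ) (fun i => rb (algebraMap A A') (L i)) ≤
      Submodule.span A' ((fun y : Mt n A => y.map (algebraMap A A')) ''
        (JJ π ρ L : Set (Mt n A))) := fun x hx => JJ_ext hx
  rw [eq_bot_iff]
  refine (pow_le_pow_left' h1 N).trans ?_
  rw [Submodule.span_pow, Submodule.span_le]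
  have h2 : (fun y : Mt n A => y.map (algebraMap A A')) =
      ((algebraMap A A').mapMatrix : Mt n A →+* Mt n A') := rfl
  rw [h2, ← Set.image_pow]
  rintro _ ⟨y, hy, rfl⟩
  have h3 := Submodule.pow_subset_pow _ hy
  rw [hN] at h3
  have h4 : y = 0 := h3
  rw [h4, map_zero]
  exact Submodule.zero_mem _

end bc

end Pool.Agent.H853.BL
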