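import Pool.Agent.H853.BL.Wt

/-!
# Congruent representations: finite level, split case
-/

set_option autoImplicit false

namespace Pool.Agent.H853.BL

open Module Polynomial Pool.Agent.H853.RU

variable {A κ : Type*} [CommRing A] [Field κ] {n : ℕ} {ι : Type*} [DecidableEq ι] [Fintype ι]
  {d : ι → ℕ} {Γ : Type*} [Group Γ] {res : A →+* κ} {π : Subgroup Γ} {ρ : Γ →* (Mt n A)ˣ}
  {L : ∀ i, Γ →* (Mt (d i) A)ˣ}

/-- Finite level, split case. -/
theorem fin_split [IsNoetherianRing A] (hres : Function.Surjective res) {k : ℕ}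
    (hk : RingHom.ker res ^ k = ⊥) [hπ : π.Normal]
    (hβ : ∀ (i : ι) (a b : Fin (d i)), ∃ x : Mt n A,
      ((x, Pi.single i (Matrix.single a b (1 : A))) : Mt n A × EL d A) ∈ BB π ρ L)
    {F : Γ} {γ γi : Mt n A × EL d A} (hγ : γ ∈ BB π ρ L) (hγi : γi ∈ BB π ρ L)
    (hγF : γ.2 = (pair ρ L F).2) (h1 : γ * γi = 1) (h2 : γi * γ = 1) (b : Fin n → κ)
    (hb : ((γi.1 * (ρ F : Mt n A)).map res).charpoly = ∏ i, (X - C (b i))) (S : Set κ)
    (hS : ∀ (s : κ) (i j : ι) (a : π → Matrix (Fin (d i)) (Fin (d j)) κ)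
      (m : Matrix (Fin (d i)) (Fin (d j)) κ), Wt res ⊥ π ρ L F s i j a m → s ∈ S)
    (hprod : ∀ l : List κ, l ≠ [] → l.length ≤ n → (∀ s ∈ l, s ∈ S) → l.prod ≠ 1)
    {N : ℕ} (hN : JJ π ρ L ^ N = ⊥) : JJ π ρ L ^ n = ⊥ := by
  classical
  rcases Nat.eq_zero_or_pos n with hn | hn
  · subst hn
    rw [eq_bot_iff]
    intro x _
    rw [Submodule.mem_bot]
    exact Subsingleton.elim _ _
  set I := JJ π ρ L with hI
  set T : Mt n A := γi.1 * (ρ F : Mt n A) with hT
  set T' : Mt n A := (ρ F⁻¹ : Mt n A) * γ.1 with hT'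
  have hFF : pair ρ L F * pair ρ L F⁻¹ = 1 := by rw [← pair_mul, mul_inv_cancel, pair_one]
  have hFF' : pair ρ L F⁻¹ * pair ρ L F = 1 := by rw [← pair_mul, inv_mul_cancel, pair_one]
  have hTT : T' * T = 1 := by
    have e3 : γ.1 * γi.1 = 1 := congrArg Prod.fst h1
    have e4 : (ρ F⁻¹ : Mt n A) * (ρ F : Mt n A) = 1 := congrArg Prod.fst hFF'
    calc T' * T = (ρ F⁻¹ : Mt n A) * (γ.1 * γi.1) * (ρ F : Mt n A) := by
          rw [hT, hT']
          simp only [mul_assoc]
      _ = 1 := by rw [e3, mul_one, e4]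
  have hTT' : T * T' = 1 := by
    have e3 : γi.1 * γ.1 = 1 := congrArg Prod.fst h2
    have e4 : (ρ F : Mt n A) * (ρ F⁻¹ : Mt n A) = 1 := congrArg Prod.fst hFF
    calc T * T' = γi.1 * ((ρ F : Mt n A) * (ρ F⁻¹ : Mt n A)) * γ.1 := by
          rw [hT, hT']
          simp only [mul_assoc]
      _ = 1 := by rw [e4, mul_one, e3]
  set σ := conj T T' with hσ
  let lft : κ → A := Function.surjInv hres
  have hl : ∀ x, res (lft x) = x := Function.surjInv_eq hres
  have hσI : ∀ x ∈ I, σ x ∈ I := by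
    intro x hx
    have e1 := mul_mem (mul_mem hγi (conj_mem F (mem_JJ.1 hx))) hγ
    have e2 : γi * (pair ρ L F * (x, 0) * pair ρ L F⁻¹) * γ = (σ x, 0) := by
      refine Prod.ext ?_ ?_
      · change γi.1 * ((ρ F : Mt n A) * x * (ρ F⁻¹ : Mt n A)) * γ.1 = _
        rw [hσ, conj_apply, hT, hT']
        simp only [mul_assoc]
      · change γi.2 * ((pair ρ L F).2 * 0 * (pair ρ L F⁻¹).2) * γ.2 = 0
        rw [mul_zero, zero_mul, mul_zero, zero_mul]
    rw [e2] at e1
    exact mem_JJ.2 e1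
  set K₀ : Submodule A (Mt n A) := RingHom.ker res • I ⊔ I * I with hK₀
  have hσK : ∀ x ∈ K₀, σ x ∈ K₀ := by
    intro x hx
    obtain ⟨y, hy, z, hz, rfl⟩ := Submodule.mem_sup.1 hx
    rw [map_add]
    refine Submodule.add_mem_sup ?_ ?_
    · refine Submodule.smul_induction_on hy (fun a ha w hw => ?_) fun w w' hw hw' => ?_
      · rw [map_smul]
        exact Submodule.smul_mem_smul ha (hσI w hw)
      · rw [map_add]
        exact Submodule.add_mem _ hw hw'
    · refine Submodule.mul_induction_on hz (fun a ha w hw => ?_) fun w w' hw hw' => ?_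
      · rw [hσ, conj_mul hTT]
        exact Submodule.mul_mem_mul (hσI a ha) (hσI w hw)
      · rw [map_add]
        exact Submodule.add_mem _ hw hw'
  -- no eigenfunctionals outside `S`
  have key : ∀ s : κ, s ∉ S → I ⊓ σ.maxGenEigenspace (lft s) ≤ K₀ := by
    intro s hs
    refine inf_ge_le res hres hk hσI hσK (lft s) fun c hc1 hc2 hc3 => ?_
    by_contra hne
    let c' : Mt n A → κ := fun x => if hx : x ∈ I then c ⟨x, hx⟩ else 0
    have hc' : ∀ (x : Mt n A) (hx : x ∈ I), c' x = c ⟨x, hx⟩ := fun x hx => dif_pos hx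
    have hfn : Fn res I c' := by
      refine ⟨fun x hx y hy => ?_, fun a x hx => ?_, fun x hx y hy => ?_⟩
      · rw [hc' _ (I.add_mem hx hy), hc' _ hx, hc' _ hy, ← map_add]
        rfl
      · rw [hc' _ (I.smul_mem a hx), hc' _ hx, ← hc1]
        rfl
      · rw [hc' _ (JJ_JJ (Submodule.mul_mem_mul hx hy))]
        exact hc2 _ (Submodule.mem_sup_right (Submodule.mul_mem_mul hx hy))
    obtain ⟨i, j, a, m, hw⟩ := wt_of_fn (s := s) hfn (by
        by_contra hcon
        push Not at hcon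
        apply hne
        ext ⟨x, hx⟩
        rw [← hc' x hx]
        exact hcon x hx) hβ hγ hγi hγF h1 h2 (by
        intro x hx
        have e1 := hc3 ⟨x, hx⟩
        rw [hl] at e1
        rw [hc' x hx, ← e1, hc' _ (by
          have e2 := hσI x hx
          rw [hσ, conj_apply] at e2
          exact e2)]
        congr 1
        apply Subtype.ext
        exact (conj_apply T T' x).symm)
    exact hs (hS s i j a m hw)
  -- the part of weight in `S`
  set Z : Set (Mt n A) :=
    {y | y ∈ I ∧ ∃ s ∈ S, y ∈ σ.maxGenEigenspace (lft s)} with hZ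
  set Y : Submodule A (Mt n A) := Submodule.span A Z with hY
  have hYI : Y ≤ I := by
    rw [hY, Submodule.span_le]
    intro y hy
    exact hy.1
  have hgen : I ≤ Y ⊔ K₀ := by
    intro x hx
    have h3 := mem_iSup hres hk hl hTT' hTT hb x
    rw [Submodule.mem_iSup_finset_iff_exists_sum] at h3
    obtain ⟨μ, hμ⟩ := h3
    have hC : ∀ c ∈ Finset.univ.image fun p : Fin n × Fin n => lft (b p.1 * (b p.2)⁻¹),
        ∀ d ∈ Finset.univ.image fun p : Fin n × Fin n => lft (b p.1 * (b p.2)⁻¹),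
        c ≠ d → IsUnit (c - d) := by
      refine unit_diff hres hk hl fun c hc => ?_
      obtain ⟨i, -, rfl⟩ := Finset.mem_image.1 hc
      exact ⟨_, rfl⟩
    have h4 := comp_mem (h := σ) hC I hσI (y := fun c => (μ c : Mt n A))
      (fun c _ => (μ c).2) (by rw [hμ]; exact hx)
    rw [← hμ]
    refine Submodule.sum_mem _ fun c hc => ?_
    have h5 := h4 c hc
    have h6 := (μ c).2
    obtain ⟨p, -, hp⟩ := Finset.mem_image.1 hc
    by_cases hs : b p.1 * (b p.2)⁻¹ ∈ S
    · refine Submodule.mem_sup_left (Submodule.subset_span ⟨h5, _, hs, ?_⟩)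
      rw [hp]
      exact h6
    · refine Submodule.mem_sup_right (key _ hs ⟨h5, ?_⟩)
      rw [hp]
      exact h6
  have hYn : Y ^ n = ⊥ := by
    rw [hY, Submodule.span_pow, eq_bot_iff, Submodule.span_le]
    intro y hy
    rw [Set.mem_pow] at hy
    obtain ⟨g, rfl⟩ := hy
    change _ = (0 : Mt n A)
    refine prod_zero hres hk hl hTT hb (S := S) ?_ _ (List.length_ofFn) ?_
    · intro m u hm1 hm2 hu1 hu2 hu3
      obtain ⟨l, hl1, hl2, hl3⟩ := steps hu2 0 m (by omega)
      have h3 : u 0 ≠ 0 := by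
        obtain ⟨i, hi⟩ := hu1 0 (Nat.zero_le _)
        rw [← hi]
        exact root_ne_zero hTT' hb i
      rw [zero_add, hu3] at hl3
      refine hprod l ?_ (by omega) hl2 ((mul_eq_right₀ h3).1 hl3.symm)
      rintro rfl
      rw [List.length_nil] at hl1
      omega
    · intro y hy
      obtain ⟨i, rfl⟩ := (List.mem_ofFn' _ _).1 hy
      exact (g i).2.2
  exact pow_eq_bot hk hN JJ_JJ hYI hgen hn hYn

end Pool.Agent.H853.BL
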