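import Pool.Agent.H853.BL.Lev

/-!
# Congruent representations: finite level, the theorem
-/

set_option autoImplicit false

namespace Pool.Agent.H853.BL

open Module Polynomial Pool.Agent.H853.RU Matrix

variable {A κ : Type*} [CommRing A] [Field κ] {n : ℕ} {ι : Type*} [Finite ι] {d : ι → ℕ}
  {Γ : Type*} [Group Γ]

/-- Finite level. -/
theorem fin_level [IsNoetherianRing A] [Finite κ] (K : Type*) [Field K] [IsAlgClosed K]
    [Algebra κ K] (res : A →+* κ) (hres : Function.Surjective res) {k : ℕ}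
    (hk : RingHom.ker res ^ k = ⊥) (π : Subgroup Γ) [hπ : π.Normal]
    (ρ : Γ →* (Mt n A)ˣ) (L : ∀ i, Γ →* (Mt (d i) A)ˣ) (F : Γ)
    (hL : ∀ y : EL d κ, y ∈ Submodule.span κ
      (Set.range fun g : π => ((fun i => (L i g : Mt (d i) A).map res) : EL d κ)))
    {t : ℕ} {W : ℕ → Submodule κ (Fin n → κ)} (hW : Chain res π ρ L t W) (S : Set K)
    (hS : ∀ (s : K) (i j : ι) (a : π → Matrix (Fin (d i)) (Fin (d j)) K)
      (m : Matrix (Fin (d i)) (Fin (d j)) K),
      Wt ((algebraMap κ K).comp res) ⊥ π ρ L F s i j a m → s ∈ S)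
    (hprod : ∀ l : List K, l ≠ [] → l.length ≤ n → (∀ s ∈ l, s ∈ S) → l.prod ≠ 1) :
    JJ π ρ L ^ n = ⊥ := by
  classical
  have : Fintype ι := Fintype.ofFinite ι
  have hN := JJ_pow_bot hW hk
  have hnil : ∀ x ∈ JJ π ρ L, x ^ (t * k) = 0 := by
    intro x hx
    have h1 := Submodule.pow_mem_pow _ hx (t * k)
    rw [hN] at h1
    exact h1
  have hFF : (pair ρ L F).2 * (pair ρ L F⁻¹).2 = 1 := by
    rw [← Prod.snd_mul, ← pair_mul, mul_inv_cancel, pair_one]
    rfl
  have hFF' : (pair ρ L F⁻¹).2 * (pair ρ L F).2 = 1 := by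
    rw [← Prod.snd_mul, ← pair_mul, inv_mul_cancel, pair_one]
    rfl
  obtain ⟨x₁, hx₁⟩ := exists_lift hres hk hL (pair ρ L F).2
  obtain ⟨x₂, hx₂⟩ := exists_lift hres hk hL (pair ρ L F⁻¹).2
  obtain ⟨γi, hγi, h1, h2⟩ := exists_inv hnil hx₁ hx₂ hFF hFF'
  set γ : Mt n A × EL d A := (x₁, (pair ρ L F).2) with hγ
  set p : κ[X] := ((γi.1 * (ρ F : Mt n A)).map res).charpoly with hp
  let κ' := p.SplittingField
  have : Algebra.IsAlgebraic κ κ' := inferInstance
  let e : κ' →ₐ[κ] K := IsAlgClosed.lift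
  obtain ⟨P, res', hP, hr1, hr2, hr3, hr4⟩ := exists_ext' hres hk κ'
  have hfree : Module.Free A (AdjoinRoot P) := Module.Free.of_basis (AdjoinRoot.powerBasis' hP).basis
  have hfin : Module.Finite A (AdjoinRoot P) := (AdjoinRoot.powerBasis' hP).finite
  have hN' : JJ π (rb (AdjoinRoot.of P) ρ) (fun i => rb (AdjoinRoot.of P) (L i)) ^ (t * k) = ⊥ :=
    JJ_pow_ext (A' := AdjoinRoot P) hN
  obtain ⟨b, hb⟩ := exists_roots (n := n) (p := p.map (algebraMap κ κ'))
    ((Matrix.charpoly_monic _).map _) (by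
      rw [natDegree_map, hp, Matrix.charpoly_natDegree_eq_dim, Fintype.card_fin])
    (SplittingField.splits p)
  have hmap : ∀ M : Mt n A, (M.map (AdjoinRoot.of P)).map res' =
      (M.map res).map (algebraMap κ κ') := by
    intro M
    ext i j
    exact hr4 _
  have key := fin_split (ρ := rb (AdjoinRoot.of P) ρ) (L := fun i => rb (AdjoinRoot.of P) (L i))
    (π := π) hr1 hr2 (F := F) (γ := bc (AdjoinRoot.of P) γ) (γi := bc (AdjoinRoot.of P) γi)
    (fun i a b' => by
      obtain ⟨x, hx⟩ := exists_lift (ρ := ρ) hres hk hL (Pi.single i (Matrix.single a b' (1 : A)))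
      refine ⟨x.map (AdjoinRoot.of P), ?_⟩
      have h3 := bc_mem (AdjoinRoot.of P) hx
      have h4 : bc (AdjoinRoot.of P) ((x, Pi.single i (Matrix.single a b' (1 : A))) :
          Mt n A × EL d A) = (x.map (AdjoinRoot.of P), Pi.single i (Matrix.single a b' 1)) := by
        refine Prod.ext rfl ?_
        funext r
        change ((Pi.single i (Matrix.single a b' (1 : A)) : EL d A) r).map (AdjoinRoot.of P) =
          (Pi.single i (Matrix.single a b' (1 : AdjoinRoot P)) : EL d (AdjoinRoot P)) r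
        by_cases hr : r = i
        · subst hr
          rw [Pi.single_eq_same, Pi.single_eq_same]
          ext u v
          rw [Matrix.map_apply, Matrix.single_apply, Matrix.single_apply]
          split_ifs
          · exact map_one _
          · exact map_zero _
        · rw [Pi.single_eq_of_ne hr, Pi.single_eq_of_ne hr]
          exact Matrix.map_zero _ (map_zero _)
      rw [h4] at h3
      exact h3)
    (bc_mem _ hx₁) (bc_mem _ hγi) rfl (by rw [← map_mul, h1, map_one])
    (by rw [← map_mul, h2, map_one]) b (by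
      have h3 : ((bc (AdjoinRoot.of P) γi).1 * (rb (AdjoinRoot.of P) ρ F : Mt n (AdjoinRoot P))) =
          (γi.1 * (ρ F : Mt n A)).map (AdjoinRoot.of P) := by
        rw [Matrix.map_mul]
        rfl
      rw [h3, hmap, Matrix.charpoly_map, ← hp, hb]) (e ⁻¹' S)
    (fun s i j a m hw => by
      have h3 := Wt.ext (θ := (algebraMap κ K).comp res) (e := (e : κ' →+* K)) (fun a => by
        rw [hr4]
        exact e.commutes (res a)) hw
      exact hS _ i j _ _ h3)
    (fun l hl1 hl2 hl3 hl4 => by
      refine hprod (l.map e) (by simpa using hl1) (by simpa using hl2) ?_ ?_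
      · intro s hs
        obtain ⟨s', hs', rfl⟩ := List.mem_map.1 hs
        exact hl3 s' hs'
      · rw [← map_list_prod, hl4, map_one])
    hN'
  rw [eq_bot_iff]
  intro z hz
  have h3 : z.map (AdjoinRoot.of P) ∈
      JJ π (rb (AdjoinRoot.of P) ρ) (fun i => rb (AdjoinRoot.of P) (L i)) ^ n := by
    have h4 : ∀ r : ℕ, ∀ z ∈ JJ π ρ L ^ r, z.map (AdjoinRoot.of P) ∈
        JJ π (rb (AdjoinRoot.of P) ρ) (fun i => rb (AdjoinRoot.of P) (L i)) ^ r := by
      intro r
      induction r with
      | zero =>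
        intro z hz
        rw [pow_zero, Submodule.mem_one] at hz
        obtain ⟨a, rfl⟩ := hz
        rw [pow_zero, Submodule.mem_one]
        refine ⟨AdjoinRoot.of P a, ?_⟩
        ext u v
        rw [Matrix.map_apply, Matrix.algebraMap_matrix_apply, Matrix.algebraMap_matrix_apply]
        split_ifs
        · rfl
        · exact (map_zero _).symm
      | succ r ih =>
        intro z hz
        rw [pow_succ] at hz ⊢
        refine Submodule.mul_induction_on hz (fun y hy x hx => ?_) fun y y' hy hy' => ?_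
        · rw [Matrix.map_mul]
          exact Submodule.mul_mem_mul (ih y hy) (bc_JJ _ hx)
        · rw [Matrix.map_add _ (map_add _)]
          exact Submodule.add_mem _ hy hy'
    exact h4 n z hz
  rw [key] at h3
  rw [Submodule.mem_bot] at h3 ⊢
  refine Matrix.map_injective hr3 ?_
  change z.map (AdjoinRoot.of P) = (0 : Mt n A).map (AdjoinRoot.of P)
  rw [Matrix.map_zero _ (map_zero _)]
  exact h3

end Pool.Agent.H853.BL
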