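import Pool.Agent.H853.BL.Adic
import Pool.Agent.H853.RU.Gal

/-!
# Consequences for semisimple and irreducible representations
-/

set_option autoImplicit false

namespace Pool.Agent.H853.BL

open Module Polynomial Pool.Agent.H853.RU Matrix

/-- Nakayama: the second projection is surjective. -/
theorem exists_lift' {A κ : Type*} [CommRing A] [Field κ] {n : ℕ} {ι : Type*} {d : ι → ℕ}
    {Γ : Type*} [Group Γ] {res : A →+* κ} {π : Subgroup Γ} {ρ : Γ →* (Mt n A)ˣ}
    {L : ∀ i, Γ →* (Mt (d i) A)ˣ} [Finite ι] (hres : Function.Surjective res)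
    (hk : RingHom.ker res ≤ Ideal.jacobson ⊥)
    (hL : ∀ y : EL d κ, y ∈ Submodule.span κ
      (Set.range fun g : π => ((fun i => (L i g : Mt (d i) A).map res) : EL d κ)))
    (y : EL d A) : ∃ x : Mt n A, ((x, y) : Mt n A × EL d A) ∈ BB π ρ L := by
  classical
  have : Fintype ι := Fintype.ofFinite ι
  let P : Submodule A (EL d A) := (BB π ρ L).map (LinearMap.snd A (Mt n A) (EL d A))
  have h1 : ∀ z ∈ Submodule.span κ
      (Set.range fun g : π => ((fun i => (L i g : Mt (d i) A).map res) : EL d κ)),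
      ∃ y ∈ P, (fun i => (y i).map res) = z := by
    intro z hz
    induction hz using Submodule.span_induction with
    | mem x hx =>
      obtain ⟨g, rfl⟩ := hx
      exact ⟨(pair ρ L g).2, ⟨_, pair_mem g, rfl⟩, rfl⟩
    | zero => exact ⟨0, P.zero_mem, funext fun i => Matrix.map_zero _ (map_zero _)⟩
    | add x y _ _ hx hy =>
      obtain ⟨x', hx', rfl⟩ := hx
      obtain ⟨y', hy', rfl⟩ := hy
      exact ⟨x' + y', P.add_mem hx' hy', funext fun i => Matrix.map_add _ (map_add res) _ _⟩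
    | smul a x _ hx =>
      obtain ⟨x', hx', rfl⟩ := hx
      obtain ⟨a', rfl⟩ := hres a
      exact ⟨a' • x', P.smul_mem _ hx', funext fun i => map_smul_res res a' (x' i)⟩
  have h2 : (⊤ : Submodule A (EL d A)) ≤ P ⊔ RingHom.ker res • ⊤ := by
    intro y _
    obtain ⟨y', hy', h3⟩ := h1 (fun i => (y i).map res) (hL _)
    rw [← add_sub_cancel y' y]
    refine Submodule.add_mem_sup hy' ?_
    have h4 : y - y' = ∑ i, LinearMap.single A (fun i => Mt (d i) A) i ((y - y') i) := by
      funext e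
      rw [Finset.sum_apply, Finset.sum_eq_single e]
      · rw [LinearMap.single_apply, Pi.single_eq_same]
      · intro i _ hi
        rw [LinearMap.single_apply, Pi.single_eq_of_ne (Ne.symm hi)]
      · intro h
        exact absurd (Finset.mem_univ e) h
    rw [h4]
    refine Submodule.sum_mem _ fun i _ => ?_
    have h5 : (y - y') i ∈ RingHom.ker res • (⊤ : Submodule A (Mt (d i) A)) := by
      refine mem_smul_top fun u v => ?_
      rw [RingHom.mem_ker]
      have h6 := congrFun (congrFun (congrFun h3 i) u) v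
      change res (y' i u v) = res (y i u v) at h6
      change res (y i u v - y' i u v) = 0
      rw [map_sub, h6, sub_self]
    have h6 := Submodule.mem_map_of_mem (f := LinearMap.single A (fun i => Mt (d i) A) i) h5
    rw [Submodule.map_smul''] at h6
    exact Submodule.smul_mono le_rfl le_top h6
  have h4 := Submodule.le_of_le_smul_of_le_jacobson_bot (N := P)
    (Module.Finite.fg_top (R := A) (M := EL d A)) hk h2
  obtain ⟨z, hz, rfl⟩ := h4 (Submodule.mem_top (x := y))
  exact ⟨z.1, hz⟩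

variable {A Λ : Type*} [CommRing A] [Field Λ] [Algebra A Λ] {n : ℕ} {ι : Type*} {d : ι → ℕ}
  {Γ : Type*} [Group Γ] {π : Subgroup Γ} {ρ : Γ →* (Mt n A)ˣ} {L : ∀ i, Γ →* (Mt (d i) A)ˣ}

/-- the operator of a matrix -/
noncomputable def op (Λ : Type*) [Field Λ] [Algebra A Λ] {m : ℕ} (x : Mt m A) :
    End Λ (Fin m → Λ) := Matrix.toLin' (x.map (algebraMap A Λ))

theorem op_apply {m : ℕ} (x : Mt m A) (v : Fin m → Λ) :
    op Λ x v = (x.map (algebraMap A Λ)) *ᵥ v := Matrix.toLin'_apply _ _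

theorem op_mul {m : ℕ} (x y : Mt m A) (v : Fin m → Λ) : op Λ (x * y) v = op Λ x (op Λ y v) := by
  rw [op_apply, op_apply, op_apply, Matrix.mulVec_mulVec, ← Matrix.map_mul]

theorem op_one {m : ℕ} (v : Fin m → Λ) : op Λ (1 : Mt m A) v = v := by
  rw [op_apply, Matrix.map_one _ (map_zero _) (map_one _), Matrix.one_mulVec]

theorem op_zero {m : ℕ} (v : Fin m → Λ) : op Λ (0 : Mt m A) v = 0 := by
  rw [op_apply, Matrix.map_zero _ (map_zero _), Matrix.zero_mulVec]

theorem op_add {m : ℕ} (x y : Mt m A) (v : Fin m → Λ) :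
    op Λ (x + y) v = op Λ x v + op Λ y v := by
  rw [op_apply, op_apply, op_apply, Matrix.map_add _ (map_add _), Matrix.add_mulVec]

theorem op_smul {m : ℕ} (a : A) (x : Mt m A) (v : Fin m → Λ) :
    op Λ (a • x) v = algebraMap A Λ a • op Λ x v := by
  rw [op_apply, op_apply, map_smul_res, Matrix.smul_mulVec]

theorem op_sum {m : ℕ} {α : Type*} (s : Finset α) (x : α → Mt m A) (v : Fin m → Λ) :
    op Λ (∑ e ∈ s, x e) v = ∑ e ∈ s, op Λ (x e) v := by
  classical
  induction s using Finset.induction_on with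
  | empty => rw [Finset.sum_empty, Finset.sum_empty, op_zero]
  | insert a s ha ih => rw [Finset.sum_insert ha, Finset.sum_insert ha, op_add, ih]

theorem op_inj (hinj : Function.Injective (algebraMap A Λ)) {m : ℕ} {x : Mt m A}
    (hx : ∀ v : Fin m → Λ, op Λ x v = 0) : x = 0 := by
  refine Matrix.map_injective hinj ?_
  change x.map (algebraMap A Λ) = (0 : Mt m A).map (algebraMap A Λ)
  rw [Matrix.map_zero _ (map_zero _)]
  apply Matrix.ext_of_mulVec_single
  intro i
  rw [Matrix.zero_mulVec, ← op_apply, hx]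

/-- stable subspaces are stable under the algebra -/
theorem stab_BB {W : Submodule Λ (Fin n → Λ)} (hW : ∀ g, ∀ w ∈ W, op Λ (ρ g : Mt n A) w ∈ W)
    {b : Mt n A × EL d A} (hb : b ∈ BB π ρ L) {w : Fin n → Λ} (hw : w ∈ W) :
    op Λ b.1 w ∈ W := by
  unfold BB at hb
  induction hb using Submodule.span_induction with
  | mem x hx =>
    obtain ⟨g, rfl⟩ := hx
    exact hW g w hw
  | zero =>
    change op Λ (0 : Mt n A) w ∈ W
    rw [op_zero]
    exact W.zero_mem
  | add x y _ _ hx hy =>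
    change op Λ (x.1 + y.1) w ∈ W
    rw [op_add]
    exact W.add_mem hx hy
  | smul a x _ hx =>
    change op Λ (a • x.1) w ∈ W
    rw [op_smul]
    exact W.smul_mem _ hx

theorem JJ_conj [hπ : π.Normal] (g : Γ) {x : Mt n A} (hx : x ∈ JJ π ρ L) :
    (ρ g : Mt n A) * x * (ρ g⁻¹ : Mt n A) ∈ JJ π ρ L := by
  have h1 := conj_mem g (mem_JJ.1 hx)
  have h2 : pair ρ L g * ((x, 0) : Mt n A × EL d A) * pair ρ L g⁻¹ =
      ((ρ g : Mt n A) * x * (ρ g⁻¹ : Mt n A), 0) := by
    refine Prod.ext rfl ?_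
    change (pair ρ L g).2 * 0 * (pair ρ L g⁻¹).2 = 0
    rw [mul_zero, zero_mul]
  rw [h2] at h1
  exact mem_JJ.2 h1

/-- The ideal `J` is zero if the representation is semisimple. -/
theorem JJ_bot [hπ : π.Normal] (hinj : Function.Injective (algebraMap A Λ)) {N : ℕ}
    (hN : JJ π ρ L ^ N = ⊥)
    (hss : ∀ W : Submodule Λ (Fin n → Λ), (∀ g, ∀ w ∈ W, op Λ (ρ g : Mt n A) w ∈ W) →
      ∃ W' : Submodule Λ (Fin n → Λ), IsCompl W W' ∧
        ∀ g, ∀ w ∈ W', op Λ (ρ g : Mt n A) w ∈ W') :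
    JJ π ρ L = ⊥ := by
  classical
  let W : Submodule Λ (Fin n → Λ) :=
    { carrier := {w | ∀ x ∈ JJ π ρ L, op Λ x w = 0}
      add_mem' := fun {a b} ha hb x hx => by rw [map_add, ha x hx, hb x hx, add_zero]
      zero_mem' := fun x hx => map_zero _
      smul_mem' := fun c w hw x hx => by rw [map_smul, hw x hx, smul_zero] }
  have hW : ∀ w, w ∈ W ↔ ∀ x ∈ JJ π ρ L, op Λ x w = 0 := fun w => Iff.rfl
  obtain ⟨W', hcompl, hW'⟩ := hss W (fun g w hw => by
    rw [hW] at hw ⊢
    intro x hx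
    have h1 : x * (ρ g : Mt n A) = (ρ g : Mt n A) *
        ((ρ g⁻¹ : Mt n A) * x * (ρ g⁻¹⁻¹ : Mt n A)) := by
      rw [inv_inv, ← mul_assoc, ← mul_assoc, ← Units.val_mul, ← map_mul, mul_inv_cancel, map_one,
        Units.val_one, one_mul]
    rw [← op_mul, h1, op_mul, hw _ (JJ_conj g⁻¹ hx), map_zero])
  have hW'0 : W' = ⊥ := by
    by_contra hne
    obtain ⟨w, hw, hw0⟩ := (Submodule.ne_bot_iff _).1 hne
    have hex : ∃ m : ℕ, ∀ z ∈ JJ π ρ L ^ m, op Λ z w = 0 := by
      refine ⟨N, fun z hz => ?_⟩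
      rw [hN, Submodule.mem_bot] at hz
      rw [hz, op_zero]
    set m := Nat.find hex with hm
    have hm0 : m ≠ 0 := by
      intro h0
      have h1 := Nat.find_spec hex
      rw [← hm, h0] at h1
      have h2 := h1 1 (by rw [pow_zero]; exact Submodule.one_le.1 le_rfl)
      rw [op_one] at h2
      exact hw0 h2
    obtain ⟨m', hm'⟩ := Nat.exists_eq_succ_of_ne_zero hm0
    have h1 := Nat.find_min hex (m := m') (by rw [← hm]; omega)
    push Not at h1
    obtain ⟨z, hz, hzw⟩ := h1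
    have hvW : op Λ z w ∈ W := by
      rw [hW]
      intro x hx
      rw [← op_mul]
      refine Nat.find_spec hex (x * z) ?_
      rw [← hm, hm', Nat.succ_eq_add_one, pow_succ']
      exact Submodule.mul_mem_mul hx hz
    have hvW' : op Λ z w ∈ W' := by
      rcases Nat.eq_zero_or_pos m' with h0 | h0
      · rw [h0, pow_zero, Submodule.mem_one] at hz
        obtain ⟨a, rfl⟩ := hz
        rw [Algebra.algebraMap_eq_smul_one, op_smul, op_one]
        exact W'.smul_mem _ hw
      · have h2 : JJ π ρ L ^ m' ≤ JJ π ρ L := by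
          obtain ⟨r, hr⟩ := Nat.exists_eq_succ_of_ne_zero h0.ne'
          rw [hr]
          clear hr
          induction r with
          | zero => rw [Nat.succ_eq_add_one, zero_add, pow_one]
          | succ r ih =>
            rw [Nat.succ_eq_add_one, pow_succ]
            exact (mul_le_mul' ih le_rfl).trans JJ_JJ
        exact stab_BB hW' (mem_JJ.1 (h2 hz)) hw
    have h3 := hcompl.disjoint
    rw [Submodule.disjoint_def] at h3
    exact hzw (h3 _ hvW hvW')
  have hWtop : W = ⊤ := by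
    have h1 := hcompl.sup_eq_top
    rw [hW'0, sup_bot_eq] at h1
    exact h1
  rw [eq_bot_iff]
  intro x hx
  rw [Submodule.mem_bot]
  refine op_inj hinj fun v => ?_
  have h1 : v ∈ W := by rw [hWtop]; trivial
  exact h1 x hx

/-- the equivariant maps -/
def HH (Λ : Type*) [Field Λ] [Algebra A Λ] (π : Subgroup Γ) (ρ : Γ →* (Mt n A)ˣ)
    (L : ∀ i, Γ →* (Mt (d i) A)ˣ) (i : ι) :
    Submodule Λ ((Fin (d i) → Λ) →ₗ[Λ] (Fin n → Λ)) where
  carrier := {f | ∀ g ∈ π, ∀ w, op Λ (ρ g : Mt n A) (f w) = f (op Λ (L i g : Mt (d i) A) w)}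
  add_mem' := fun {a b} ha hb g hg w => by
    rw [LinearMap.add_apply, map_add, ha g hg, hb g hg, LinearMap.add_apply]
  zero_mem' := fun g hg w => by
    rw [LinearMap.zero_apply, map_zero, LinearMap.zero_apply]
  smul_mem' := fun c f hf g hg w => by
    rw [LinearMap.smul_apply, map_smul, hf g hg, LinearMap.smul_apply]

theorem mem_HH {i : ι} {f : (Fin (d i) → Λ) →ₗ[Λ] (Fin n → Λ)} : f ∈ HH Λ π ρ L i ↔
    ∀ g ∈ π, ∀ w, op Λ (ρ g : Mt n A) (f w) = f (op Λ (L i g : Mt (d i) A) w) := Iff.rfl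

theorem HH_BB {i : ι} {f : (Fin (d i) → Λ) →ₗ[Λ] (Fin n → Λ)} (hf : f ∈ HH Λ π ρ L i)
    {b : Mt n A × EL d A} (hb : b ∈ BB π ρ L) (w : Fin (d i) → Λ) :
    op Λ b.1 (f w) = f (op Λ (b.2 i) w) := by
  unfold BB at hb
  induction hb using Submodule.span_induction with
  | mem x hx =>
    obtain ⟨g, rfl⟩ := hx
    exact hf g g.2 w
  | zero =>
    change op Λ (0 : Mt n A) (f w) = f (op Λ (0 : Mt (d i) A) w)
    rw [op_zero, op_zero, map_zero]
  | add x y _ _ hx hy =>
    change op Λ (x.1 + y.1) (f w) = f (op Λ (x.2 i + y.2 i) w)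
    rw [op_add, op_add, map_add, hx, hy]
  | smul a x _ hx =>
    change op Λ (a • x.1) (f w) = f (op Λ (a • x.2 i) w)
    rw [op_smul, op_smul, map_smul, hx]

theorem one_sub_mem [Fintype ι] [DecidableEq ι]
    {β : ∀ i : ι, Fin (d i) → Fin (d i) → Mt n A}
    (hβ' : ∀ i a b, ((β i a b, Pi.single i (Matrix.single a b (1 : A))) : Mt n A × EL d A) ∈
      BB π ρ L) : (1 : Mt n A) - ∑ i, ∑ a, β i a a ∈ JJ π ρ L := by
  have e1 : ∑ i, ∑ a, ((β i a a, Pi.single i (Matrix.single a a (1 : A))) :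
      Mt n A × EL d A) ∈ BB π ρ L :=
    Submodule.sum_mem _ fun i _ => Submodule.sum_mem _ fun a _ => hβ' i a a
  have e2 := sub_JJ one_mem e1 (by
    rw [Prod.snd_sum]
    simp only [Prod.snd_sum]
    rw [sum_single_one]
    rfl)
  rw [Prod.fst_sum] at e2
  simp only [Prod.fst_sum] at e2
  exact e2

/-- If `J = 0`, the space is spanned by the images of equivariant maps. -/
theorem spanned [Finite ι] (hlift : ∀ y : EL d A, ∃ x : Mt n A, ((x, y) : Mt n A × EL d A) ∈
    BB π ρ L) (hJ : JJ π ρ L = ⊥) (v : Fin n → Λ) :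
    v ∈ Submodule.span Λ {v : Fin n → Λ | ∃ i, ∃ f ∈ HH Λ π ρ L i, ∃ w, f w = v} := by
  classical
  have : Fintype ι := Fintype.ofFinite ι
  choose β hβ using fun (i : ι) (a b : Fin (d i)) =>
    hlift (Pi.single i (Matrix.single a b (1 : A)))
  have h1 := one_sub_mem hβ
  rw [hJ, Submodule.mem_bot, sub_eq_zero] at h1
  have h2 : v = ∑ i, ∑ a, op Λ (β i a a) v := by
    conv_lhs => rw [← op_one (A := A) v, h1, op_sum]
    simp only [op_sum]
  rw [h2]
  refine Submodule.sum_mem _ fun i _ => Submodule.sum_mem _ fun q _ => Submodule.subset_span ?_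
  let f : (Fin (d i) → Λ) →ₗ[Λ] (Fin n → Λ) :=
    ∑ b, (LinearMap.proj b : (Fin (d i) → Λ) →ₗ[Λ] Λ).smulRight (op Λ (β i b q) v)
  have hf : ∀ w, f w = ∑ b, w b • op Λ (β i b q) v := by
    intro w
    rw [LinearMap.sum_apply]
    rfl
  refine ⟨i, f, ?_, Pi.single q 1, ?_⟩
  · rw [mem_HH]
    intro g hg w
    have h3 : ∀ b, (ρ g : Mt n A) * β i b q = ∑ e, (L i g : Mt (d i) A) e b • β i e q := by
      intro b
      have h4 := XX_mem (j := i) (bt := fun b => β i b q) (q := q) (fun a => hβ i a q)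
        (pair_mem (ρ := ρ) (L := L) (⟨g, hg⟩ : π)) b
      rw [hJ, Submodule.mem_bot] at h4
      exact sub_eq_zero.1 h4
    rw [hf, hf, map_sum]
    simp only [map_smul, ← op_mul, h3, op_sum, op_smul, Finset.smul_sum]
    rw [Finset.sum_comm]
    refine Finset.sum_congr rfl fun e _ => ?_
    rw [op_apply (L i g : Mt (d i) A) w]
    change _ = (∑ b, algebraMap A Λ ((L i g : Mt (d i) A) e b) * w b) • op Λ (β i e q) v
    rw [Finset.sum_smul]
    refine Finset.sum_congr rfl fun b _ => ?_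
    rw [smul_smul, mul_comm]
  · rw [hf, Finset.sum_eq_single q]
    · rw [Pi.single_eq_same, one_smul]
    · intro b _ hb
      rw [Pi.single_eq_of_ne hb, zero_smul]
    · intro h
      exact absurd (Finset.mem_univ q) h

end Pool.Agent.H853.BL
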