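import Pool.Agent.H853.BL.Hom

/-!
# Irreducible representations are tensor products
-/

set_option autoImplicit false

namespace Pool.Agent.H853.BL

open Module Polynomial Pool.Agent.H853.RU Matrix

variable {A Λ : Type*} [CommRing A] [Field Λ] [Algebra A Λ] {n : ℕ} {ι : Type*} {d : ι → ℕ}
  {Γ : Type*} [Group Γ] {π : Subgroup Γ} {ρ : Γ →* (Mt n A)ˣ} {L : ∀ i, Γ →* (Mt (d i) A)ˣ}

theorem op_rep {m : ℕ} (r : Γ →* (Mt m A)ˣ) (g h : Γ) (v : Fin m → Λ) :
    op Λ (r (g * h) : Mt m A) v = op Λ (r g : Mt m A) (op Λ (r h : Mt m A) v) := by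
  rw [map_mul, Units.val_mul, op_mul]

theorem op_rep_inv {m : ℕ} (r : Γ →* (Mt m A)ˣ) (g : Γ) (v : Fin m → Λ) :
    op Λ (r g⁻¹ : Mt m A) (op Λ (r g : Mt m A) v) = v := by
  rw [← op_rep, inv_mul_cancel, map_one, Units.val_one, op_one]

/-- the action on the equivariant maps -/
noncomputable def actH [hπ : π.Normal] (i : ι) (g : Γ) :
    HH Λ π ρ L i →ₗ[Λ] HH Λ π ρ L i where
  toFun f := ⟨(op Λ (ρ g : Mt n A)) ∘ₗ (f : (Fin (d i) → Λ) →ₗ[Λ] (Fin n → Λ)) ∘ₗ
    (op Λ (L i g⁻¹ : Mt (d i) A)), by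
    rw [mem_HH]
    intro h hh w
    change op Λ (ρ h : Mt n A) (op Λ (ρ g : Mt n A) (f.1 (op Λ (L i g⁻¹ : Mt (d i) A) w))) =
      op Λ (ρ g : Mt n A) (f.1 (op Λ (L i g⁻¹ : Mt (d i) A) (op Λ (L i h : Mt (d i) A) w)))
    have h1 : g⁻¹ * h * g ∈ π := by
      have h2 := hπ.conj_mem h hh g⁻¹
      rwa [inv_inv] at h2
    have h2 := mem_HH.1 f.2 _ h1 (op Λ (L i g⁻¹ : Mt (d i) A) w)
    rw [← op_rep, ← op_rep, show h * g = g * (g⁻¹ * h * g) by group, op_rep, h2, ← op_rep]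
    congr 3
    group⟩
  map_add' f f' := by
    apply Subtype.ext
    apply LinearMap.ext
    intro w
    exact map_add (op Λ (ρ g : Mt n A)) _ _
  map_smul' c f := by
    apply Subtype.ext
    apply LinearMap.ext
    intro w
    exact map_smul (op Λ (ρ g : Mt n A)) _ _

theorem actH_apply [hπ : π.Normal] (i : ι) (g : Γ) (f : HH Λ π ρ L i) (w : Fin (d i) → Λ) :
    (actH i g f).1 w = op Λ (ρ g : Mt n A) (f.1 (op Λ (L i g⁻¹ : Mt (d i) A) w)) := rfl

/-- the action on the equivariant maps -/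
noncomputable def actHom [hπ : π.Normal] (i : ι) : Γ →* Module.End Λ (HH Λ π ρ L i) where
  toFun g := actH i g
  map_one' := by
    apply LinearMap.ext
    intro f
    apply Subtype.ext
    apply LinearMap.ext
    intro w
    rw [actH_apply, inv_one, map_one, map_one, Units.val_one, Units.val_one, op_one, op_one]
    rfl
  map_mul' g h := by
    apply LinearMap.ext
    intro f
    apply Subtype.ext
    apply LinearMap.ext
    intro w
    change (actH i (g * h) f).1 w = (actH i g (actH i h f)).1 w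
    rw [actH_apply, actH_apply, actH_apply, _root_.mul_inv_rev, op_rep, op_rep]

theorem HH_basis (i : ι) : ∃ m : ℕ, Nonempty (Module.Basis (Fin m) Λ (HH Λ π ρ L i)) := by
  have h := @Module.Free.of_divisionRing Λ (HH Λ π ρ L i) _ (Submodule.addCommGroup _) _
  have h' : Module.Free Λ (HH Λ π ρ L i) := h
  exact ⟨_, ⟨Module.finBasis Λ (HH Λ π ρ L i)⟩⟩

/-- An irreducible representation with `J = 0` is a tensor product. -/
theorem tensor [Finite ι] [hπ : π.Normal]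
    (hlift : ∀ y : EL d A, ∃ x : Mt n A, ((x, y) : Mt n A × EL d A) ∈ BB π ρ L)
    (hJ : JJ π ρ L = ⊥) (hn : n ≠ 0)
    (hirr : ∀ W : Submodule Λ (Fin n → Λ), (∀ g, ∀ w ∈ W, op Λ (ρ g : Mt n A) w ∈ W) →
      W = ⊥ ∨ W = ⊤) :
    ∃ (i : ι) (m : ℕ) (N : Γ →* (Matrix (Fin m) (Fin m) Λ)ˣ)
      (Ψ : (Fin m → Fin (d i) → Λ) ≃ₗ[Λ] (Fin n → Λ)), (∀ g ∈ π, N g = 1) ∧
      ∀ g w, op Λ (ρ g : Mt n A) (Ψ w) =
        Ψ (fun r => ∑ s, (N g : Matrix (Fin m) (Fin m) Λ) r s • op Λ (L i g : Mt (d i) A) (w s)) := by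
  classical
  -- an equivariant map
  obtain ⟨i, f₀, hf₀, hne⟩ : ∃ i, ∃ f ∈ HH Λ π ρ L i, f ≠ 0 := by
    by_contra hcon
    push Not at hcon
    have h1 := spanned hlift hJ (Pi.single ⟨0, Nat.pos_of_ne_zero hn⟩ 1 : Fin n → Λ)
    have h2 : Submodule.span Λ {v : Fin n → Λ | ∃ i, ∃ f ∈ HH Λ π ρ L i, ∃ w, f w = v} = ⊥ := by
      rw [Submodule.span_eq_bot]
      rintro _ ⟨i, f, hf, w, rfl⟩
      rw [hcon i f hf, LinearMap.zero_apply]
    rw [h2, Submodule.mem_bot] at h1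
    have h3 := congrFun h1 ⟨0, Nat.pos_of_ne_zero hn⟩
    rw [Pi.single_eq_same] at h3
    exact one_ne_zero h3
  obtain ⟨m, ⟨bs⟩⟩ := HH_basis (Λ := Λ) (π := π) (ρ := ρ) (L := L) i
  let N : Γ →* (Matrix (Fin m) (Fin m) Λ)ˣ :=
    (((LinearMap.toMatrixAlgEquiv bs : Module.End Λ (HH Λ π ρ L i) →*
      Matrix (Fin m) (Fin m) Λ)).comp (actHom i)).toHomUnits
  have hN : ∀ g s, actH i g (bs s) = ∑ r, (N g : Matrix (Fin m) (Fin m) Λ) r s • bs r := by
    intro g s
    have h1 : ∀ r, (N g : Matrix (Fin m) (Fin m) Λ) r s = bs.repr (actH i g (bs s)) r := by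
      intro r
      change LinearMap.toMatrixAlgEquiv bs (actHom i g) r s = _
      rw [LinearMap.toMatrixAlgEquiv_apply]
      rfl
    conv_lhs => rw [← bs.sum_repr (actH i g (bs s))]
    exact Finset.sum_congr rfl fun r _ => by rw [h1]
  let Ψ₀ : (Fin m → Fin (d i) → Λ) →ₗ[Λ] (Fin n → Λ) :=
    ∑ s, (bs s : (Fin (d i) → Λ) →ₗ[Λ] (Fin n → Λ)) ∘ₗ
      (LinearMap.proj s : (Fin m → Fin (d i) → Λ) →ₗ[Λ] (Fin (d i) → Λ))
  have hΨ₀ : ∀ w, Ψ₀ w = ∑ s, (bs s : (Fin (d i) → Λ) →ₗ[Λ] (Fin n → Λ)) (w s) := by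
    intro w
    rw [LinearMap.sum_apply]
    rfl
  have heq : ∀ g w, op Λ (ρ g : Mt n A) (Ψ₀ w) =
      Ψ₀ (fun r => ∑ s, (N g : Matrix (Fin m) (Fin m) Λ) r s •
        op Λ (L i g : Mt (d i) A) (w s)) := by
    intro g w
    rw [hΨ₀, hΨ₀, map_sum]
    simp only [map_sum, map_smul]
    rw [Finset.sum_comm]
    refine Finset.sum_congr rfl fun s _ => ?_
    have h1 : ∀ u, (actH i g (bs s)).1 u = ∑ r, (N g : Matrix (Fin m) (Fin m) Λ) r s •
        (bs r : (Fin (d i) → Λ) →ₗ[Λ] (Fin n → Λ)) u := by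
      intro u
      rw [hN g s]
      rw [Submodule.coe_sum, LinearMap.sum_apply]
      rfl
    rw [← h1, actH_apply, op_rep_inv]
  have hinjΨ : Function.Injective Ψ₀ := by
    rw [← LinearMap.ker_eq_bot, eq_bot_iff]
    intro w hw
    rw [LinearMap.mem_ker] at hw
    rw [Submodule.mem_bot]
    have h1 : ∀ b : Fin (d i), ∑ s, w s b • bs s = 0 := by
      intro b
      apply Subtype.ext
      rw [Submodule.coe_sum, Submodule.coe_zero]
      apply (Pi.basisFun Λ (Fin (d i))).ext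
      intro a
      rw [Pi.basisFun_apply, LinearMap.sum_apply, LinearMap.zero_apply]
      obtain ⟨x, hx⟩ := hlift (Pi.single i (Matrix.single a b (1 : A)))
      have h2 : op Λ x (Ψ₀ w) = ∑ s, (w s b • bs s : HH Λ π ρ L i).1 (Pi.single a 1) := by
        rw [hΨ₀, map_sum]
        refine Finset.sum_congr rfl fun s _ => ?_
        have h3 := HH_BB (bs s).2 hx (w s)
        rw [h3]
        change _ = w s b • (bs s).1 (Pi.single a 1)
        rw [← map_smul]
        congr 1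
        change op Λ ((Pi.single i (Matrix.single a b (1 : A)) : EL d A) i) (w s) = _
        rw [Pi.single_eq_same, op_apply]
        ext u
        rw [Matrix.mulVec, dotProduct, Finset.sum_eq_single b]
        · rw [Matrix.map_apply, Matrix.single_apply, Pi.smul_apply, smul_eq_mul,
            Pi.single_apply]
          by_cases hu : u = a
          · subst hu
            rw [if_pos ⟨rfl, rfl⟩, if_pos rfl, map_one, one_mul, mul_one]
          · rw [if_neg (fun h => hu h.1.symm), if_neg hu, map_zero, zero_mul, mul_zero]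
        · intro c _ hc
          rw [Matrix.map_apply, Matrix.single_apply, if_neg (fun h => hc h.2.symm), map_zero,
            zero_mul]
        · intro h
          exact absurd (Finset.mem_univ b) h
      rw [hw, map_zero] at h2
      exact h2.symm
    funext s b
    have h2 := congrFun (bs.repr_sum_self (fun s => w s b)) s
    rw [h1 b, map_zero] at h2
    exact h2.symm
  have hsurj : Function.Surjective Ψ₀ := by
    rw [← LinearMap.range_eq_top]
    refine (hirr (LinearMap.range Ψ₀) ?_).resolve_left ?_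
    · rintro g _ ⟨w, rfl⟩
      exact ⟨_, (heq g w).symm⟩
    · intro h1
      apply hne
      apply LinearMap.ext
      intro u
      have h2 : f₀ u = Ψ₀ (fun s => bs.repr ⟨f₀, hf₀⟩ s • u) := by
        rw [hΨ₀]
        have h3 : f₀ = ∑ s, bs.repr ⟨f₀, hf₀⟩ s • (bs s : (Fin (d i) → Λ) →ₗ[Λ] (Fin n → Λ)) := by
          have h4 := congrArg Subtype.val (bs.sum_repr ⟨f₀, hf₀⟩)
          rw [Submodule.coe_sum] at h4
          exact h4.symm
        conv_lhs => rw [h3]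
        rw [LinearMap.sum_apply]
        refine Finset.sum_congr rfl fun s _ => ?_
        rw [map_smul]
        rfl
      have h3 : Ψ₀ (fun s => bs.repr ⟨f₀, hf₀⟩ s • u) ∈ LinearMap.range Ψ₀ := ⟨_, rfl⟩
      rw [h1, Submodule.mem_bot] at h3
      rw [h2, h3, LinearMap.zero_apply]
  refine ⟨i, m, N, LinearEquiv.ofBijective Ψ₀ ⟨hinjΨ, hsurj⟩, ?_, heq⟩
  intro g hg
  apply Units.ext
  have h1 : actHom (Λ := Λ) (π := π) (ρ := ρ) (L := L) i g = 1 := by
    apply LinearMap.ext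
    intro f
    apply Subtype.ext
    apply LinearMap.ext
    intro w
    change (actH i g f).1 w = f.1 w
    rw [actH_apply, mem_HH.1 f.2 g hg, ← op_rep, mul_inv_cancel, map_one, Units.val_one, op_one]
  change LinearMap.toMatrixAlgEquiv bs (actHom i g) = 1
  rw [h1, map_one]

/-- the factor `N` is irreducible -/
theorem factor_irr {i : ι} {m : ℕ} (hn : n ≠ 0) {N : Γ →* (Matrix (Fin m) (Fin m) Λ)ˣ}
    (Ψ : (Fin m → Fin (d i) → Λ) ≃ₗ[Λ] (Fin n → Λ))
    (heq : ∀ g w, op Λ (ρ g : Mt n A) (Ψ w) =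
      Ψ (fun r => ∑ s, (N g : Matrix (Fin m) (Fin m) Λ) r s • op Λ (L i g : Mt (d i) A) (w s)))
    (hirr : ∀ W : Submodule Λ (Fin n → Λ), (∀ g, ∀ w ∈ W, op Λ (ρ g : Mt n A) w ∈ W) →
      W = ⊥ ∨ W = ⊤) :
    m ≠ 0 ∧ d i ≠ 0 ∧ ∀ W : Submodule Λ (Fin m → Λ),
      (∀ g, ∀ w ∈ W, (N g : Matrix (Fin m) (Fin m) Λ) *ᵥ w ∈ W) → W = ⊥ ∨ W = ⊤ := by
  classical
  have hne : ∃ (s : Fin m) (b : Fin (d i)), True := by
    by_contra hcon
    push Not at hcon
    have h1 : Ψ.symm (Pi.single ⟨0, Nat.pos_of_ne_zero hn⟩ 1) = 0 := by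
      funext s b
      exact (hcon s b).elim
    rw [LinearEquiv.map_eq_zero_iff] at h1
    have h3 := congrFun h1 ⟨0, Nat.pos_of_ne_zero hn⟩
    rw [Pi.single_eq_same] at h3
    exact one_ne_zero h3
  obtain ⟨s₀, b₀, -⟩ := hne
  refine ⟨fun h => ?_, fun h => ?_, ?_⟩
  · subst h
    exact Fin.elim0 s₀
  · rw [h] at b₀
    exact Fin.elim0 b₀
  intro W hW
  let W' : Submodule Λ (Fin m → Fin (d i) → Λ) :=
    { carrier := {w | ∀ b, (fun s => w s b) ∈ W}
      add_mem' := fun {x y} hx hy b => W.add_mem (hx b) (hy b)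
      zero_mem' := fun b => W.zero_mem
      smul_mem' := fun c w hw b => W.smul_mem c (hw b) }
  have hW' : ∀ w, w ∈ W' ↔ ∀ b, (fun s => w s b) ∈ W := fun w => Iff.rfl
  have h1 := hirr (W'.map (Ψ : (Fin m → Fin (d i) → Λ) →ₗ[Λ] (Fin n → Λ))) (by
    rintro g _ ⟨w, hw, rfl⟩
    change op Λ (ρ g : Mt n A) (Ψ w) ∈ _
    rw [heq]
    refine ⟨_, ?_, rfl⟩
    change _ ∈ W'
    rw [hW']
    intro b
    have h2 : (fun r => (∑ s, (N g : Matrix (Fin m) (Fin m) Λ) r s •
        op Λ (L i g : Mt (d i) A) (w s)) b) =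
        ∑ e, algebraMap A Λ ((L i g : Mt (d i) A) b e) •
          ((N g : Matrix (Fin m) (Fin m) Λ) *ᵥ (fun s => w s e)) := by
      funext r
      rw [Finset.sum_apply, Finset.sum_apply]
      have h3 : ∀ s, ((N g : Matrix (Fin m) (Fin m) Λ) r s •
          op Λ (L i g : Mt (d i) A) (w s)) b = ∑ e, (N g : Matrix (Fin m) (Fin m) Λ) r s *
            (algebraMap A Λ ((L i g : Mt (d i) A) b e) * w s e) := by
        intro s
        rw [Pi.smul_apply, op_apply, smul_eq_mul, ← Finset.mul_sum]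
        rfl
      have h4 : ∀ e, (algebraMap A Λ ((L i g : Mt (d i) A) b e) •
          ((N g : Matrix (Fin m) (Fin m) Λ) *ᵥ (fun s => w s e))) r =
          ∑ s, (N g : Matrix (Fin m) (Fin m) Λ) r s *
            (algebraMap A Λ ((L i g : Mt (d i) A) b e) * w s e) := by
        intro e
        rw [Pi.smul_apply, smul_eq_mul]
        change _ * ∑ s, (N g : Matrix (Fin m) (Fin m) Λ) r s * w s e = _
        rw [Finset.mul_sum]
        exact Finset.sum_congr rfl fun s _ => by ring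
      simp only [h3, h4]
      exact Finset.sum_comm
    rw [h2]
    exact W.sum_mem fun e _ => W.smul_mem _ (hW g _ (hw e)))
  rcases h1 with h1 | h1
  · left
    rw [eq_bot_iff]
    intro c hc
    rw [Submodule.mem_bot]
    have h2 : Ψ (fun s _ => c s) ∈ W'.map (Ψ : (Fin m → Fin (d i) → Λ) →ₗ[Λ] (Fin n → Λ)) :=
      ⟨_, fun b => hc, rfl⟩
    rw [h1, Submodule.mem_bot, LinearEquiv.map_eq_zero_iff] at h2
    funext s
    exact congrFun (congrFun h2 s) b₀
  · right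
    rw [eq_top_iff]
    intro c _
    have h2 : Ψ (fun s _ => c s) ∈ W'.map (Ψ : (Fin m → Fin (d i) → Λ) →ₗ[Λ] (Fin n → Λ)) := by
      rw [h1]
      trivial
    obtain ⟨w, hw, h3⟩ := h2
    have h4 : w = fun s _ => c s := Ψ.injective h3
    have h5 := hw b₀
    rw [h4] at h5
    exact h5

open scoped Kronecker in
/-- the determinant of a tensor product -/
theorem factor_det {i : ι} {m : ℕ} {N : Γ →* (Matrix (Fin m) (Fin m) Λ)ˣ}
    (Ψ : (Fin m → Fin (d i) → Λ) ≃ₗ[Λ] (Fin n → Λ))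
    (heq : ∀ g w, op Λ (ρ g : Mt n A) (Ψ w) =
      Ψ (fun r => ∑ s, (N g : Matrix (Fin m) (Fin m) Λ) r s • op Λ (L i g : Mt (d i) A) (w s)))
    (g : Γ) : algebraMap A Λ (ρ g : Mt n A).det =
      (N g : Matrix (Fin m) (Fin m) Λ).det ^ (d i) *
        algebraMap A Λ (L i g : Mt (d i) A).det ^ m := by
  classical
  let Ψ' : (Fin m × Fin (d i) → Λ) ≃ₗ[Λ] (Fin n → Λ) :=
    (LinearEquiv.curry Λ Λ (Fin m) (Fin (d i))).trans Ψ
  set K : Matrix (Fin m × Fin (d i)) (Fin m × Fin (d i)) Λ :=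
    (N g : Matrix (Fin m) (Fin m) Λ) ⊗ₖ (L i g : Mt (d i) A).map (algebraMap A Λ) with hK
  have h1 : op Λ (ρ g : Mt n A) =
      (Ψ' : (Fin m × Fin (d i) → Λ) →ₗ[Λ] (Fin n → Λ)) ∘ₗ (Matrix.toLin' K) ∘ₗ
        (Ψ'.symm : (Fin n → Λ) →ₗ[Λ] (Fin m × Fin (d i) → Λ)) := by
    apply LinearMap.ext
    intro v
    obtain ⟨u, rfl⟩ := Ψ'.surjective v
    change op Λ (ρ g : Mt n A) (Ψ (Function.curry u)) = Ψ' (Matrix.toLin' K (Ψ'.symm (Ψ' u)))
    rw [heq, LinearEquiv.symm_apply_apply]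
    change _ = Ψ (Function.curry (Matrix.toLin' K u))
    congr 1
    funext r b
    rw [Finset.sum_apply]
    change _ = Matrix.toLin' K u (r, b)
    rw [Matrix.toLin'_apply, Matrix.mulVec, dotProduct, Fintype.sum_prod_type]
    refine Finset.sum_congr rfl fun s _ => ?_
    rw [Pi.smul_apply, op_apply, smul_eq_mul, Matrix.mulVec, dotProduct, Finset.mul_sum]
    refine Finset.sum_congr rfl fun e _ => ?_
    rw [hK, Matrix.kroneckerMap_apply, mul_assoc]
    rfl
  have h2 : LinearMap.det (op Λ (ρ g : Mt n A)) = K.det := by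
    rw [h1]
    have h3 := LinearMap.det_conj (Matrix.toLin' K) Ψ'
    rw [h3, LinearMap.det_toLin']
  have h3 : LinearMap.det (op Λ (ρ g : Mt n A)) = algebraMap A Λ (ρ g : Mt n A).det := by
    unfold op
    rw [LinearMap.det_toLin', RingHom.map_det]
    rfl
  rw [← h3, h2, hK, Matrix.det_kronecker, Fintype.card_fin, Fintype.card_fin, RingHom.map_det]
  rfl

end Pool.Agent.H853.BL
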