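import Pool.Agent.H853.BL.Alg

/-!
# Functionals on the ideal `J` and cocycles
-/

set_option autoImplicit false

namespace Pool.Agent.H853.BL

open Module Polynomial Pool.Agent.H853.RU

section fn

variable {A κ : Type*} [CommRing A] [Field κ] {E : Type*} [Ring E] [Algebra A E]

/-- a functional on `J` with values in the residue field which kills the products -/
structure Fn (res : A →+* κ) (J : Submodule A E) (c : E → κ) : Prop where
  add : ∀ x ∈ J, ∀ y ∈ J, c (x + y) = c x + c y
  smul : ∀ (a : A), ∀ x ∈ J, c (a • x) = res a * c x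
  mul : ∀ x ∈ J, ∀ y ∈ J, c (x * y) = 0

variable {res : A →+* κ} {J : Submodule A E} {c : E → κ}

theorem Fn.zero (h : Fn res J c) : c 0 = 0 := by
  have h1 := h.add 0 J.zero_mem 0 J.zero_mem
  rw [add_zero] at h1
  exact left_eq_add.1 h1

theorem Fn.sub (h : Fn res J c) {x y : E} (hx : x ∈ J) (hy : y ∈ J) : c (x - y) = c x - c y := by
  have h1 := h.add (x - y) (J.sub_mem hx hy) y hy
  rw [sub_add_cancel] at h1
  rw [h1, add_sub_cancel_right]

theorem Fn.sum (h : Fn res J c) {α : Type*} (s : Finset α) (f : α → E) (hf : ∀ i ∈ s, f i ∈ J) :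
    c (∑ i ∈ s, f i) = ∑ i ∈ s, c (f i) := by
  classical
  induction s using Finset.induction_on with
  | empty => rw [Finset.sum_empty, Finset.sum_empty, h.zero]
  | insert a s ha ih =>
    rw [Finset.sum_insert ha, Finset.sum_insert ha, h.add _ (hf a (Finset.mem_insert_self a s)) _
      (J.sum_mem fun i hi => hf i (Finset.mem_insert_of_mem hi)),
      ih fun i hi => hf i (Finset.mem_insert_of_mem hi)]

end fn

variable {A κ : Type*} [CommRing A] [Field κ] {n : ℕ} {ι : Type*} [DecidableEq ι] {d : ι → ℕ}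
  {Γ : Type*} [Group Γ] {res : A →+* κ} {π : Subgroup Γ} {ρ : Γ →* (Mt n A)ˣ}
  {L : ∀ i, Γ →* (Mt (d i) A)ˣ} {c : Mt n A → κ}

/-- the defect of equivariance -/
def XX (j : ι) (bt : Fin (d j) → Mt n A) (b : Mt n A × EL d A) (a : Fin (d j)) : Mt n A :=
  b.1 * bt a - ∑ e, b.2 j e a • bt e

/-- the cocycle -/
def DD (c : Mt n A → κ) (i j : ι) (al : Fin (d i) → Mt n A) (bt : Fin (d j) → Mt n A)
    (b : Mt n A × EL d A) : Matrix (Fin (d i)) (Fin (d j)) κ :=
  Matrix.of fun a' a => c (al a' * XX j bt b a)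

theorem mul_single_one {m : ℕ} (M : Mt m A) (a q : Fin m) :
    M * Matrix.single a q (1 : A) = ∑ e, M e a • Matrix.single e q (1 : A) := by
  ext x y
  rw [Matrix.sum_apply]
  simp only [Matrix.smul_apply, smul_eq_mul, Matrix.single_apply, Matrix.mul_apply, mul_ite,
    mul_one, mul_zero]
  by_cases hy : q = y
  · simp [hy]
  · simp [hy]

theorem single_one_mul {m : ℕ} (M : Mt m A) (p a : Fin m) :
    Matrix.single p a (1 : A) * M = ∑ e, M a e • Matrix.single p e (1 : A) := by
  ext x y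
  rw [Matrix.sum_apply]
  simp only [Matrix.smul_apply, smul_eq_mul, Matrix.single_apply, Matrix.mul_apply, ite_mul,
    one_mul, zero_mul, mul_ite, mul_one, mul_zero]
  by_cases hx : p = x
  · simp [hx]
  · simp [hx]

variable {i j : ι} {al : Fin (d i) → Mt n A} {bt : Fin (d j) → Mt n A} {p : Fin (d i)}
  {q : Fin (d j)}

theorem XX_mem (hbt : ∀ a, ((bt a, Pi.single j (Matrix.single a q (1 : A))) : Mt n A × EL d A) ∈
    BB π ρ L) {b : Mt n A × EL d A} (hb : b ∈ BB π ρ L) (a : Fin (d j)) :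
    XX j bt b a ∈ JJ π ρ L := by
  have h1 := mul_mem hb (hbt a)
  have h2 : ∑ e, b.2 j e a • ((bt e, Pi.single j (Matrix.single e q (1 : A))) :
      Mt n A × EL d A) ∈ BB π ρ L :=
    Submodule.sum_mem _ fun e _ => Submodule.smul_mem _ _ (hbt e)
  have h3 := sub_JJ h1 h2 (by
    rw [Prod.snd_sum, Prod.snd_mul]
    change b.2 * Pi.single j (Matrix.single a q (1 : A)) =
      ∑ e, b.2 j e a • (Pi.single j (Matrix.single e q (1 : A)) : EL d A)
    rw [← Pi.single_mul_right, mul_single_one]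
    funext i'
    by_cases h : i' = j
    · subst h
      rw [Pi.single_eq_same, Finset.sum_apply]
      refine Finset.sum_congr rfl fun e _ => ?_
      rw [Pi.smul_apply, Pi.single_eq_same]
    · rw [Pi.single_eq_of_ne h, Finset.sum_apply]
      symm
      refine Finset.sum_eq_zero fun e _ => ?_
      rw [Pi.smul_apply, Pi.single_eq_of_ne h, smul_zero])
  rw [Prod.fst_sum] at h3
  exact h3

theorem P0 (hc : Fn res (JJ π ρ L) c)
    (hal : ∀ a, ((al a, Pi.single i (Matrix.single p a (1 : A))) : Mt n A × EL d A) ∈ BB π ρ L)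
    {b : Mt n A × EL d A} (hb : b ∈ BB π ρ L) {y : Mt n A} (hy : y ∈ JJ π ρ L) (a : Fin (d i)) :
    c (al a * (b.1 * y)) = ∑ e, res (b.2 i a e) * c (al e * y) := by
  have h1 := mul_mem (hal a) hb
  have h2 : ∑ e, b.2 i a e • ((al e, Pi.single i (Matrix.single p e (1 : A))) :
      Mt n A × EL d A) ∈ BB π ρ L :=
    Submodule.sum_mem _ fun e _ => Submodule.smul_mem _ _ (hal e)
  have h3 := sub_JJ h1 h2 (by
    rw [Prod.snd_sum, Prod.snd_mul]
    change Pi.single i (Matrix.single p a (1 : A)) * b.2 =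
      ∑ e, b.2 i a e • (Pi.single i (Matrix.single p e (1 : A)) : EL d A)
    rw [← Pi.single_mul_left, single_one_mul]
    funext i'
    by_cases h : i' = i
    · subst h
      rw [Pi.single_eq_same, Finset.sum_apply]
      refine Finset.sum_congr rfl fun e _ => ?_
      rw [Pi.smul_apply, Pi.single_eq_same]
    · rw [Pi.single_eq_of_ne h, Finset.sum_apply]
      symm
      refine Finset.sum_eq_zero fun e _ => ?_
      rw [Pi.smul_apply, Pi.single_eq_of_ne h, smul_zero])
  rw [Prod.fst_sum, Prod.fst_mul] at h3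
  change al a * b.1 - ∑ e, b.2 i a e • al e ∈ _ at h3
  have h4 : ∀ e, al e * y ∈ JJ π ρ L := fun e => mul_JJ (hal e) hy
  have h5 : al a * (b.1 * y) = (al a * b.1 - ∑ e, b.2 i a e • al e) * y +
      ∑ e, b.2 i a e • (al e * y) := by
    rw [sub_mul, Finset.sum_mul, mul_assoc]
    simp only [smul_mul_assoc]
    rw [sub_add_cancel]
  rw [h5, hc.add _ (JJ_JJ (Submodule.mul_mem_mul h3 hy)) _ (Submodule.sum_mem _ fun e _ =>
    Submodule.smul_mem _ _ (h4 e)), hc.mul _ h3 _ hy, zero_add,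
    hc.sum _ _ fun e _ => Submodule.smul_mem _ _ (h4 e)]
  exact Finset.sum_congr rfl fun e _ => hc.smul _ _ (h4 e)

theorem XX_mul (b b' : Mt n A × EL d A) (a : Fin (d j)) :
    XX j bt (b * b') a = b.1 * XX j bt b' a + ∑ e, b'.2 j e a • XX j bt b e := by
  unfold XX
  rw [Prod.fst_mul, Prod.snd_mul, Pi.mul_apply, mul_sub, Finset.mul_sum]
  simp only [smul_sub, Finset.smul_sum, smul_smul, Finset.sum_sub_distrib, Matrix.mul_apply,
    Finset.sum_smul, mul_smul_comm]
  rw [Finset.sum_comm (s := Finset.univ) (t := Finset.univ)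
    (f := fun x y => (b'.2 j x a * b.2 j y x) • bt y)]
  simp only [mul_comm (b'.2 j _ a)]
  rw [← mul_assoc]
  abel

theorem DD_mul (hc : Fn res (JJ π ρ L) c)
    (hal : ∀ a, ((al a, Pi.single i (Matrix.single p a (1 : A))) : Mt n A × EL d A) ∈ BB π ρ L)
    (hbt : ∀ a, ((bt a, Pi.single j (Matrix.single a q (1 : A))) : Mt n A × EL d A) ∈ BB π ρ L)
    {b b' : Mt n A × EL d A} (hb : b ∈ BB π ρ L) (hb' : b' ∈ BB π ρ L) :
    DD c i j al bt (b * b') =
      (b.2 i).map res * DD c i j al bt b' + DD c i j al bt b * (b'.2 j).map res := by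
  ext a' a
  rw [Matrix.add_apply, Matrix.mul_apply, Matrix.mul_apply]
  change c (al a' * XX j bt (b * b') a) = _
  have h1 : ∀ e, al a' * XX j bt b e ∈ JJ π ρ L := fun e => mul_JJ (hal a') (XX_mem hbt hb e)
  have h2 : b.1 * XX j bt b' a ∈ JJ π ρ L := mul_JJ hb (XX_mem hbt hb' a)
  rw [XX_mul, mul_add, Finset.mul_sum]
  simp only [mul_smul_comm]
  rw [hc.add _ (mul_JJ (hal a') h2) _ (Submodule.sum_mem _ fun e _ =>
    Submodule.smul_mem _ _ (h1 e)), P0 hc hal hb (XX_mem hbt hb' a),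
    hc.sum _ _ fun e _ => Submodule.smul_mem _ _ (h1 e)]
  congr 1
  refine Finset.sum_congr rfl fun e _ => ?_
  rw [hc.smul _ _ (h1 e), mul_comm]
  rfl

theorem XX_add (b b' : Mt n A × EL d A) (a : Fin (d j)) :
    XX j bt (b + b') a = XX j bt b a + XX j bt b' a := by
  unfold XX
  rw [Prod.fst_add, Prod.snd_add, Pi.add_apply]
  simp only [Matrix.add_apply, add_smul, Finset.sum_add_distrib, add_mul]
  abel

theorem XX_smul (r : A) (b : Mt n A × EL d A) (a : Fin (d j)) :
    XX j bt (r • b) a = r • XX j bt b a := by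
  unfold XX
  rw [Prod.smul_fst, Prod.smul_snd, Pi.smul_apply]
  simp only [Matrix.smul_apply, smul_eq_mul, smul_sub, Finset.smul_sum, smul_smul,
    smul_mul_assoc]

theorem DD_add (hc : Fn res (JJ π ρ L) c)
    (hal : ∀ a, ((al a, Pi.single i (Matrix.single p a (1 : A))) : Mt n A × EL d A) ∈ BB π ρ L)
    (hbt : ∀ a, ((bt a, Pi.single j (Matrix.single a q (1 : A))) : Mt n A × EL d A) ∈ BB π ρ L)
    {b b' : Mt n A × EL d A} (hb : b ∈ BB π ρ L) (hb' : b' ∈ BB π ρ L) :
    DD c i j al bt (b + b') = DD c i j al bt b + DD c i j al bt b' := by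
  ext a' a
  rw [Matrix.add_apply]
  change c (al a' * XX j bt (b + b') a) = _
  rw [XX_add, mul_add, hc.add _ (mul_JJ (hal a') (XX_mem hbt hb a)) _
    (mul_JJ (hal a') (XX_mem hbt hb' a))]
  rfl

theorem DD_smul (hc : Fn res (JJ π ρ L) c)
    (hal : ∀ a, ((al a, Pi.single i (Matrix.single p a (1 : A))) : Mt n A × EL d A) ∈ BB π ρ L)
    (hbt : ∀ a, ((bt a, Pi.single j (Matrix.single a q (1 : A))) : Mt n A × EL d A) ∈ BB π ρ L)
    (r : A) {b : Mt n A × EL d A} (hb : b ∈ BB π ρ L) :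
    DD c i j al bt (r • b) = res r • DD c i j al bt b := by
  ext a' a
  rw [Matrix.smul_apply]
  change c (al a' * XX j bt (r • b) a) = _
  rw [XX_smul, mul_smul_comm, hc.smul _ _ (mul_JJ (hal a') (XX_mem hbt hb a))]
  rfl

theorem DD_one (hc : Fn res (JJ π ρ L) c)
    (hal : ∀ a, ((al a, Pi.single i (Matrix.single p a (1 : A))) : Mt n A × EL d A) ∈ BB π ρ L)
    (hbt : ∀ a, ((bt a, Pi.single j (Matrix.single a q (1 : A))) : Mt n A × EL d A) ∈ BB π ρ L) :
    DD c i j al bt 1 = 0 := by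
  have h1 := DD_mul hc hal hbt one_mem one_mem
  have h2 : ∀ (m : ℕ), ((1 : Mt m A)).map res = 1 := fun m =>
    Matrix.map_one _ (map_zero _) (map_one _)
  rw [mul_one] at h1
  change _ = ((1 : Mt (d i) A)).map res * _ + _ * ((1 : Mt (d j) A)).map res at h1
  rw [h2, h2, Matrix.one_mul, Matrix.mul_one] at h1
  exact left_eq_add.1 h1

/-- The cocycle is not a coboundary. -/
theorem not_cob (hc : Fn res (JJ π ρ L) c)
    (hal : ∀ a, ((al a, Pi.single i (Matrix.single p a (1 : A))) : Mt n A × EL d A) ∈ BB π ρ L)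
    (hbt : ∀ a, ((bt a, Pi.single j (Matrix.single a q (1 : A))) : Mt n A × EL d A) ∈ BB π ρ L)
    {M : Matrix (Fin (d i)) (Fin (d j)) κ}
    (hM : ∀ g : π, DD c i j al bt (pair ρ L g) =
      (L i g : Mt (d i) A).map res * M - M * (L j g : Mt (d j) A).map res)
    {y : Mt n A} (hy : y ∈ JJ π ρ L) : c (al p * (y * bt q)) = 0 := by
  have h1 : ∀ b ∈ BB π ρ L, DD c i j al bt b = (b.2 i).map res * M - M * (b.2 j).map res := by
    intro b hb
    have hz : DD c i j al bt 0 = 0 := by
      have h2 := DD_smul hc hal hbt 0 (b := 0) (Submodule.zero_mem _)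
      rw [zero_smul, map_zero, zero_smul] at h2
      exact h2
    refine Submodule.span_induction (p := fun b _ => DD c i j al bt b =
      (b.2 i).map res * M - M * (b.2 j).map res) ?_ ?_ ?_ ?_ hb
    · rintro _ ⟨g, rfl⟩
      exact hM g
    · rw [hz]
      change _ = ((0 : Mt (d i) A)).map res * M - M * ((0 : Mt (d j) A)).map res
      rw [Matrix.map_zero _ (map_zero _), Matrix.map_zero _ (map_zero _), Matrix.zero_mul,
        Matrix.mul_zero, sub_zero]
    · intro x y hx hy ex ey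
      rw [DD_add hc hal hbt hx hy, ex, ey]
      change _ = (x.2 i + y.2 i).map res * M - M * (x.2 j + y.2 j).map res
      rw [Matrix.map_add _ (map_add res), Matrix.map_add _ (map_add res), Matrix.add_mul,
        Matrix.mul_add]
      abel
    · intro r x hx ex
      rw [DD_smul hc hal hbt r hx, ex]
      change _ = (r • x.2 i).map res * M - M * (r • x.2 j).map res
      have e1 : ∀ (m : ℕ) (z : Mt m A), (r • z).map res = res r • z.map res := by
        intro m z
        ext u v
        exact map_mul res _ _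
      rw [e1, e1, Matrix.smul_mul, Matrix.mul_smul, smul_sub]
  have h2 := h1 _ (mem_JJ.1 hy)
  change _ = ((0 : Mt (d i) A)).map res * M - M * ((0 : Mt (d j) A)).map res at h2
  rw [Matrix.map_zero _ (map_zero _), Matrix.map_zero _ (map_zero _), Matrix.zero_mul,
    Matrix.mul_zero, sub_zero] at h2
  have h3 := congrFun (congrFun h2 p) q
  change c (al p * (y * bt q - ∑ e, (0 : Mt (d j) A) e q • bt e)) = 0 at h3
  rw [Finset.sum_eq_zero (fun e _ => by rw [Matrix.zero_apply, zero_smul]), sub_zero] at h3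
  exact h3

/-- The action of a conjugation which is trivial on the second components. -/
theorem DD_tau (hc : Fn res (JJ π ρ L) c)
    (hal : ∀ a, ((al a, Pi.single i (Matrix.single p a (1 : A))) : Mt n A × EL d A) ∈ BB π ρ L)
    (hbt : ∀ a, ((bt a, Pi.single j (Matrix.single a q (1 : A))) : Mt n A × EL d A) ∈ BB π ρ L)
    {T T' : Mt n A} (hT : T' * T = 1)
    (hτ : ∀ b ∈ BB π ρ L, ((T * b.1 * T', b.2) : Mt n A × EL d A) ∈ BB π ρ L) {s : κ}
    (hs : ∀ x ∈ JJ π ρ L, c (T * x * T') = s * c x) {b : Mt n A × EL d A} (hb : b ∈ BB π ρ L) :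
    DD c i j al bt (T * b.1 * T', b.2) = s • DD c i j al bt b -
      ((b.2 i).map res * (Matrix.of fun a' a => c (al a' * (T * bt a * T' - bt a))) -
        (Matrix.of fun a' a => c (al a' * (T * bt a * T' - bt a))) * (b.2 j).map res) := by
  have hmul : ∀ x y : Mt n A, T * (x * y) * T' = (T * x * T') * (T * y * T') := by
    intro x y
    calc T * (x * y) * T' = T * x * 1 * y * T' := by simp only [mul_assoc, one_mul]
      _ = T * x * (T' * T) * y * T' := by rw [hT]
      _ = _ := by simp only [mul_assoc]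
  have hv : ∀ a, T * bt a * T' - bt a ∈ JJ π ρ L := fun a => sub_JJ (hτ _ (hbt a)) (hbt a) rfl
  have hu : ∀ a, T * al a * T' - al a ∈ JJ π ρ L := fun a => sub_JJ (hτ _ (hal a)) (hal a) rfl
  ext a' a
  rw [Matrix.sub_apply, Matrix.smul_apply, Matrix.sub_apply, Matrix.mul_apply, Matrix.mul_apply]
  have hX := XX_mem hbt hb a
  have h1 : s * c (al a' * XX j bt b a) = c (al a' * (T * XX j bt b a * T')) := by
    rw [← hs _ (mul_JJ (hal a') hX), hmul]
    have h2 : T * XX j bt b a * T' ∈ JJ π ρ L := by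
      have h3 := hτ _ (mem_JJ.1 hX)
      exact mem_JJ.2 h3
    have h3 : T * al a' * T' * (T * XX j bt b a * T') = al a' * (T * XX j bt b a * T') +
        (T * al a' * T' - al a') * (T * XX j bt b a * T') := by
      rw [sub_mul, add_sub_cancel]
    rw [h3, hc.add _ (mul_JJ (hal a') h2) _ (JJ_JJ (Submodule.mul_mem_mul (hu a') h2)),
      hc.mul _ (hu a') _ h2, add_zero]
  have h2 : T * XX j bt b a * T' = XX j bt (T * b.1 * T', b.2) a +
      ((T * b.1 * T') * (T * bt a * T' - bt a) - ∑ e, b.2 j e a • (T * bt e * T' - bt e)) := by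
    unfold XX
    rw [mul_sub, sub_mul, hmul, Finset.mul_sum, Finset.sum_mul, mul_sub]
    simp only [mul_smul_comm, smul_mul_assoc, smul_sub, Finset.sum_sub_distrib]
    abel
  have h3 : al a' * XX j bt (T * b.1 * T', b.2) a ∈ JJ π ρ L :=
    mul_JJ (hal a') (XX_mem hbt (hτ _ hb) a)
  have h4 : al a' * ((T * b.1 * T') * (T * bt a * T' - bt a)) ∈ JJ π ρ L :=
    mul_JJ (hal a') (mul_JJ (hτ _ hb) (hv a))
  have h5 : ∀ e, al a' * (T * bt e * T' - bt e) ∈ JJ π ρ L := fun e => mul_JJ (hal a') (hv e)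
  change c (al a' * XX j bt (T * b.1 * T', b.2) a) = s * c (al a' * XX j bt b a) - _
  rw [h1, h2, mul_add, mul_sub (al a'), Finset.mul_sum]
  simp only [mul_smul_comm]
  rw [hc.add _ h3 _ (Submodule.sub_mem _ h4 (Submodule.sum_mem _ fun e _ =>
    Submodule.smul_mem _ _ (h5 e))), hc.sub h4 (Submodule.sum_mem _ fun e _ =>
    Submodule.smul_mem _ _ (h5 e)), hc.sum _ _ fun e _ => Submodule.smul_mem _ _ (h5 e),
    P0 hc hal (hτ _ hb) (hv a)]
  have h6 : ∑ e, c (b.2 j e a • (al a' * (T * bt e * T' - bt e))) =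
      ∑ e, Matrix.of (fun a' a => c (al a' * (T * bt a * T' - bt a))) a' e *
        (b.2 j).map res e a := by
    refine Finset.sum_congr rfl fun e _ => ?_
    rw [hc.smul _ _ (h5 e), mul_comm]
    rfl
  rw [h6]
  change _ = c _ + (∑ e, (b.2 i).map res a' e *
    Matrix.of (fun a' a => c (al a' * (T * bt a * T' - bt a))) e a - _) - _
  abel

end Pool.Agent.H853.BL
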