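import Pool.Agent.H853.BL.Ext

/-!
# Congruent representations: finite level, general case
-/

set_option autoImplicit false

namespace Pool.Agent.H853.BL

open Module Polynomial Pool.Agent.H853.RU Matrix

section chain

variable {A κ : Type*} [CommRing A] [Field κ] {n : ℕ} {ι : Type*} {d : ι → ℕ} {Γ : Type*}
  [Group Γ] {res : A →+* κ} {π : Subgroup Γ} {ρ : Γ →* (Mt n A)ˣ} {L : ∀ i, Γ →* (Mt (d i) A)ˣ}

theorem map_smul_res {m m' : ℕ} (res : A →+* κ) (a : A) (x : Matrix (Fin m) (Fin m') A) :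
    (a • x).map res = res a • x.map res := by
  ext u v
  exact map_mul res _ _

theorem chain_rel {i : ι} {f : (Fin (d i) → κ) →ₗ[κ] (Fin n → κ)} {W : Submodule κ (Fin n → κ)}
    (hf : ∀ g ∈ π, ∀ w, ((ρ g : Mt n A).map res) *ᵥ f w - f (((L i g : Mt (d i) A).map res) *ᵥ w) ∈ W)
    {b : Mt n A × EL d A} (hb : b ∈ BB π ρ L) (w : Fin (d i) → κ) :
    (b.1.map res) *ᵥ f w - f (((b.2 i).map res) *ᵥ w) ∈ W := by
  unfold BB at hb
  induction hb using Submodule.span_induction with
  | mem x hx =>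
    obtain ⟨g, rfl⟩ := hx
    exact hf g g.2 w
  | zero =>
    change ((0 : Mt n A).map res) *ᵥ f w - f (((0 : Mt (d i) A).map res) *ᵥ w) ∈ W
    rw [Matrix.map_zero _ (map_zero _), Matrix.map_zero _ (map_zero _), Matrix.zero_mulVec,
      Matrix.zero_mulVec, map_zero, sub_zero]
    exact W.zero_mem
  | add x y _ _ hx hy =>
    change ((x.1 + y.1).map res) *ᵥ f w - f (((x.2 i + y.2 i).map res) *ᵥ w) ∈ W
    rw [Matrix.map_add _ (map_add res), Matrix.map_add _ (map_add res), Matrix.add_mulVec,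
      Matrix.add_mulVec, map_add, add_sub_add_comm]
    exact W.add_mem hx hy
  | smul a x _ hx =>
    change ((a • x.1).map res) *ᵥ f w - f (((a • x.2 i).map res) *ᵥ w) ∈ W
    rw [map_smul_res, map_smul_res, Matrix.smul_mulVec, Matrix.smul_mulVec, map_smul,
      ← smul_sub]
    exact W.smul_mem _ hx

/-- the residual chain -/
def Chain (res : A →+* κ) (π : Subgroup Γ) (ρ : Γ →* (Mt n A)ˣ) (L : ∀ i, Γ →* (Mt (d i) A)ˣ)
    (t : ℕ) (W : ℕ → Submodule κ (Fin n → κ)) : Prop :=
  W 0 = ⊥ ∧ W t = ⊤ ∧ ∀ s < t, ∃ (i : ι) (f : (Fin (d i) → κ) →ₗ[κ] (Fin n → κ)),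
    W (s + 1) = W s ⊔ LinearMap.range f ∧
    ∀ g ∈ π, ∀ w, ((ρ g : Mt n A).map res) *ᵥ f w - f (((L i g : Mt (d i) A).map res) *ᵥ w) ∈ W s

theorem chain_stable {t : ℕ} {W : ℕ → Submodule κ (Fin n → κ)} (h : Chain res π ρ L t W) (s : ℕ)
    (hs : s ≤ t) {b : Mt n A × EL d A} (hb : b ∈ BB π ρ L) {w : Fin n → κ} (hw : w ∈ W s) :
    (b.1.map res) *ᵥ w ∈ W s := by
  induction s generalizing w with
  | zero =>
    rw [h.1, Submodule.mem_bot] at hw ⊢
    rw [hw, Matrix.mulVec_zero]
  | succ s ih =>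
    obtain ⟨i, f, h1, h2⟩ := h.2.2 s (by omega)
    rw [h1] at hw ⊢
    obtain ⟨w₁, hw₁, _, ⟨u, rfl⟩, rfl⟩ := Submodule.mem_sup.1 hw
    rw [Matrix.mulVec_add]
    refine Submodule.add_mem _ (Submodule.mem_sup_left (ih (by omega) hw₁)) ?_
    rw [← sub_add_cancel ((b.1.map res) *ᵥ f u) (f (((b.2 i).map res) *ᵥ u))]
    exact Submodule.add_mem_sup (chain_rel h2 hb u) ⟨_, rfl⟩

theorem chain_step {t : ℕ} {W : ℕ → Submodule κ (Fin n → κ)} (h : Chain res π ρ L t W) (s : ℕ)
    (hs : s < t) {x : Mt n A} (hx : x ∈ JJ π ρ L) {w : Fin n → κ} (hw : w ∈ W (s + 1)) :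
    (x.map res) *ᵥ w ∈ W s := by
  obtain ⟨i, f, h1, h2⟩ := h.2.2 s hs
  rw [h1] at hw
  obtain ⟨w₁, hw₁, _, ⟨u, rfl⟩, rfl⟩ := Submodule.mem_sup.1 hw
  rw [Matrix.mulVec_add]
  refine Submodule.add_mem _ (chain_stable h s hs.le (mem_JJ.1 hx) hw₁) ?_
  have h3 := chain_rel h2 (mem_JJ.1 hx) u
  change (x.map res) *ᵥ f u - f (((0 : Mt (d i) A).map res) *ᵥ u) ∈ W s at h3
  rw [Matrix.map_zero _ (map_zero _), Matrix.zero_mulVec, map_zero, sub_zero] at h3
  exact h3

theorem JJ_pow_chain {t : ℕ} {W : ℕ → Submodule κ (Fin n → κ)} (h : Chain res π ρ L t W) :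
    JJ π ρ L ^ t ≤ RingHom.ker res • (⊤ : Submodule A (Mt n A)) := by
  have key : ∀ s ≤ t, ∀ z ∈ JJ π ρ L ^ s, ∀ w ∈ W s, (z.map res) *ᵥ w ∈ W 0 := by
    intro s
    induction s with
    | zero =>
      intro _ z _ w hw
      rw [h.1, Submodule.mem_bot] at hw ⊢
      rw [hw, Matrix.mulVec_zero]
    | succ s ih =>
      intro hs z hz w hw
      rw [pow_succ] at hz
      refine Submodule.mul_induction_on hz (fun y hy x hx => ?_) fun y y' hy hy' => ?_
      · have e1 : (y * x).map res = y.map res * x.map res := Matrix.map_mul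
        rw [e1, ← Matrix.mulVec_mulVec]
        exact ih (by omega) y hy _ (chain_step h s (by omega) hx hw)
      · have e1 : (y + y').map res = y.map res + y'.map res := Matrix.map_add _ (map_add res) _ _
        rw [e1, Matrix.add_mulVec]
        exact Submodule.add_mem _ hy hy'
  intro z hz
  refine mem_smul_top fun u v => ?_
  rw [RingHom.mem_ker]
  have h1 := key t le_rfl z hz (Pi.single v 1) (by rw [h.2.1]; trivial)
  rw [h.1, Submodule.mem_bot, Matrix.mulVec_single_one] at h1
  exact congrFun h1 u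

theorem JJ_pow_bot {t k : ℕ} {W : ℕ → Submodule κ (Fin n → κ)} (h : Chain res π ρ L t W)
    (hk : RingHom.ker res ^ k = ⊥) : JJ π ρ L ^ (t * k) = ⊥ := by
  rw [pow_mul, eq_bot_iff]
  refine (pow_le_pow_left' (JJ_pow_chain h) k).trans ((smul_top_pow _ _).trans ?_)
  rw [hk, Submodule.bot_smul]

/-- Nakayama: the second projection is surjective. -/
theorem exists_lift [Finite ι] (hres : Function.Surjective res) {k : ℕ}
    (hk : RingHom.ker res ^ k = ⊥)
    (hL : ∀ y : EL d κ, y ∈ Submodule.span κ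
      (Set.range fun g : π => ((fun i => (L i g : Mt (d i) A).map res) : EL d κ)))
    (y : EL d A) : ∃ x : Mt n A, ((x, y) : Mt n A × EL d A) ∈ BB π ρ L := by
  classical
  have : Fintype ι := Fintype.ofFinite ι
  let P : Submodule A (EL d A) := (BB π ρ L).map (LinearMap.snd A (Mt n A) (EL d A))
  have h1 : ∀ z ∈ Submodule.span κ
      (Set.range fun g : π => ((fun i => (L i g : Mt (d i) A).map res) : EL d κ)),
      ∃ y ∈ P, (fun i => (y i).map res) = z := by
    intro z hz
    induction hz using Submodule.span_induction with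
    | mem x hx =>
      obtain ⟨g, rfl⟩ := hx
      exact ⟨(pair ρ L g).2, ⟨_, pair_mem g, rfl⟩, rfl⟩
    | zero => exact ⟨0, P.zero_mem, funext fun i => Matrix.map_zero _ (map_zero _)⟩
    | add x y _ _ hx hy =>
      obtain ⟨x', hx', rfl⟩ := hx
      obtain ⟨y', hy', rfl⟩ := hy
      exact ⟨x' + y', P.add_mem hx' hy', funext fun i => Matrix.map_add _ (map_add res) _ _⟩
    | smul a x _ hx =>
      obtain ⟨x', hx', rfl⟩ := hx
      obtain ⟨a', rfl⟩ := hres a
      exact ⟨a' • x', P.smul_mem _ hx', funext fun i => map_smul_res res a' (x' i)⟩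
  have h2 : (⊤ : Submodule A (EL d A)) ≤ P ⊔ RingHom.ker res • ⊤ := by
    intro y _
    obtain ⟨y', hy', h3⟩ := h1 (fun i => (y i).map res) (hL _)
    rw [← add_sub_cancel y' y]
    refine Submodule.add_mem_sup hy' ?_
    have h4 : y - y' = ∑ i, LinearMap.single A (fun i => Mt (d i) A) i ((y - y') i) := by
      funext e
      rw [Finset.sum_apply, Finset.sum_eq_single e]
      · rw [LinearMap.single_apply, Pi.single_eq_same]
      · intro i _ hi
        rw [LinearMap.single_apply, Pi.single_eq_of_ne (Ne.symm hi)]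
      · intro h
        exact absurd (Finset.mem_univ e) h
    rw [h4]
    refine Submodule.sum_mem _ fun i _ => ?_
    have h5 : (y - y') i ∈ RingHom.ker res • (⊤ : Submodule A (Mt (d i) A)) := by
      refine mem_smul_top fun u v => ?_
      rw [RingHom.mem_ker]
      have h6 := congrFun (congrFun (congrFun h3 i) u) v
      change res (y' i u v) = res (y i u v) at h6
      change res (y i u v - y' i u v) = 0
      rw [map_sub, h6, sub_self]
    have h6 := Submodule.mem_map_of_mem (f := LinearMap.single A (fun i => Mt (d i) A) i) h5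
    rw [Submodule.map_smul''] at h6
    exact Submodule.smul_mono le_rfl le_top h6
  have h3 : RingHom.ker res ≤ Ideal.jacobson ⊥ := by
    intro a ha
    have h4 : IsNilpotent a := ⟨k, res_eq_zero_pow hk (RingHom.mem_ker.1 ha)⟩
    refine Ideal.mem_jacobson_bot.2 fun y => ?_
    have h5 : IsNilpotent (a * y) := by
      obtain ⟨r, hr⟩ := h4
      exact ⟨r, by rw [mul_pow, hr, zero_mul]⟩
    exact h5.isUnit_add_one
  have h4 := Submodule.le_of_le_smul_of_le_jacobson_bot (N := P)
    (Module.Finite.fg_top (R := A) (M := EL d A)) h3 h2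
  obtain ⟨z, hz, rfl⟩ := h4 (Submodule.mem_top (x := y))
  exact ⟨z.1, hz⟩

end chain

/-- Weights after an extension of the coefficients. -/
theorem Wt.ext {A A' κ' K : Type*} [CommRing A] [CommRing A'] [Field κ'] [Field K] {n : ℕ}
    {ι : Type*} {d : ι → ℕ} {Γ : Type*} [Group Γ] {π : Subgroup Γ} {ρ : Γ →* (Mt n A)ˣ}
    {L : ∀ i, Γ →* (Mt (d i) A)ˣ} {f : A →+* A'} {res' : A' →+* κ'} {e : κ' →+* K}
    {θ : A →+* K} (hθ : ∀ a, e (res' (f a)) = θ a) {F : Γ} {s : κ'} {i j : ι}
    {a : π → Matrix (Fin (d i)) (Fin (d j)) κ'} {m : Matrix (Fin (d i)) (Fin (d j)) κ'}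
    (h : Wt res' ⊥ π (rb f ρ) (fun i => rb f (L i)) F s i j a m) :
    Wt θ ⊥ π ρ L F (e s) i j (fun g => (a g).map e) (m.map e) := by
  have h1 : ∀ (r : ι) (g : Γ), (((rb f (L r) g : Mt (d r) A')).map res').map e =
      (L r g : Mt (d r) A).map θ := by
    intro r g
    ext u v
    exact hθ _
  constructor
  · intro g h'
    change (a (g * h')).map e = _
    rw [h.mul, Matrix.map_add _ (map_add e), Matrix.map_mul, Matrix.map_mul, h1, h1]
  · intro g hg hg'
    change (a g).map e = 0
    rw [h.near g ?_ ?_, Matrix.map_zero _ (map_zero _)]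
    · intro x y
      have h2 := hg x y
      rw [Ideal.mem_bot, sub_eq_zero] at h2
      change f ((ρ g : Mt n A) x y) - (1 : Mt n A') x y ∈ _
      rw [h2, Ideal.mem_bot, sub_eq_zero, Matrix.one_apply, Matrix.one_apply]
      split_ifs
      · exact map_one f
      · exact map_zero f
    · intro r x y
      have h2 := hg' r x y
      rw [Ideal.mem_bot, sub_eq_zero] at h2
      change f ((L r g : Mt (d r) A) x y) - (1 : Mt (d r) A') x y ∈ _
      rw [h2, Ideal.mem_bot, sub_eq_zero, Matrix.one_apply, Matrix.one_apply]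
      split_ifs
      · exact map_one f
      · exact map_zero f
  · intro g h' hgh
    have h2 : ∀ x : Matrix (Fin (d i)) (Fin (d j)) κ', (s • x).map e = e s • x.map e := by
      intro x
      ext u v
      exact map_mul e _ _
    change (a h').map e = _
    rw [h.eig g h' hgh, Matrix.map_add _ (map_add e), h2, Matrix.map_sub _ (map_sub e),
      Matrix.map_mul, Matrix.map_mul, Matrix.map_mul, Matrix.map_mul, h1, h1, h1, h1]
  · intro M
    by_contra hcon
    push Not at hcon
    let _ : Algebra κ' K := e.toAlgebra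
    obtain ⟨r, hr⟩ := (Algebra.linearMap κ' K).exists_leftInverse_of_injective
      (LinearMap.ker_eq_bot.2 e.injective)
    have hr1 : ∀ x, r (e x) = x := fun x => LinearMap.congr_fun hr x
    have hr2 : ∀ x y, r (e x * y) = x * r y := by
      intro x y
      have h2 : e x * y = x • y := rfl
      rw [h2, map_smul, smul_eq_mul]
    obtain ⟨g, hg⟩ := h.ne (M.map r)
    apply hg
    ext u v
    have h2 := congrArg r (congrFun (congrFun (hcon g) u) v)
    rw [← h1, ← h1] at h2
    change r (e (a g u v)) = r (_ - _) at h2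
    rw [hr1, map_sub, Matrix.mul_apply, Matrix.mul_apply, map_sum, map_sum] at h2
    rw [h2, Matrix.sub_apply, Matrix.mul_apply, Matrix.mul_apply]
    congr 1
    · refine Finset.sum_congr rfl fun w _ => ?_
      exact hr2 _ _
    · refine Finset.sum_congr rfl fun w _ => ?_
      rw [mul_comm]
      refine (hr2 _ _).trans ?_
      rw [mul_comm]
      rfl

end Pool.Agent.H853.BL
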