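import Pool.Agent.H853.BL.Key

/-!
# Functionals on the ideal `J` give weights
-/

set_option autoImplicit false

namespace Pool.Agent.H853.BL

open Module Polynomial Pool.Agent.H853.RU

section

variable {A : Type*} [CommRing A] {n : ℕ} {ι : Type*} {d : ι → ℕ} {Γ : Type*} [Group Γ]

/-- weight data -/
structure Wt {K : Type*} [Field K] (θ : A →+* K) (I : Ideal A) (π : Subgroup Γ)
    (ρ : Γ →* (Mt n A)ˣ) (L : ∀ i, Γ →* (Mt (d i) A)ˣ) (F : Γ) (s : K) (i j : ι)
    (a : π → Matrix (Fin (d i)) (Fin (d j)) K) (m : Matrix (Fin (d i)) (Fin (d j)) K) :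
    Prop where
  mul : ∀ g h : π, a (g * h) =
    (L i g : Mt (d i) A).map θ * a h + a g * (L j h : Mt (d j) A).map θ
  near : ∀ g : π, (∀ x y, (ρ g : Mt n A) x y - (1 : Mt n A) x y ∈ I) →
    (∀ e x y, (L e g : Mt (d e) A) x y - (1 : Mt (d e) A) x y ∈ I) → a g = 0
  eig : ∀ g h : π, (h : Γ) = F * g * F⁻¹ → a h =
    s • ((L i F : Mt (d i) A).map θ * a g * (L j F⁻¹ : Mt (d j) A).map θ) +
      ((L i h : Mt (d i) A).map θ * m - m * (L j h : Mt (d j) A).map θ)
  ne : ∀ M : Matrix (Fin (d i)) (Fin (d j)) K, ∃ g : π, a g ≠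
    (L i g : Mt (d i) A).map θ * M - M * (L j g : Mt (d j) A).map θ

end

variable {A κ : Type*} [CommRing A] [Field κ] {n : ℕ} {ι : Type*} [DecidableEq ι] [Fintype ι]
  {d : ι → ℕ} {Γ : Type*} [Group Γ] {res : A →+* κ} {π : Subgroup Γ} {ρ : Γ →* (Mt n A)ˣ}
  {L : ∀ i, Γ →* (Mt (d i) A)ˣ} {c : Mt n A → κ}

theorem sum_single_one (d : ι → ℕ) :
    ∑ i : ι, ∑ a : Fin (d i), (Pi.single i (Matrix.single a a (1 : A)) : EL d A) = 1 := by
  funext e
  rw [Finset.sum_apply, Finset.sum_eq_single e]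
  · rw [Finset.sum_apply]
    simp only [Pi.single_eq_same]
    ext x y
    rw [Matrix.sum_apply]
    simp only [Matrix.single_apply, Pi.one_apply, Matrix.one_apply]
    by_cases h : x = y
    · subst h
      simp
    · rw [if_neg h]
      refine Finset.sum_eq_zero fun a _ => if_neg ?_
      rintro ⟨rfl, rfl⟩
      exact h rfl
  · intro i _ hi
    rw [Finset.sum_apply]
    exact Finset.sum_eq_zero fun a _ => Pi.single_eq_of_ne (Ne.symm hi) _
  · intro h
    exact absurd (Finset.mem_univ e) h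

theorem wt_of_fn [hπ : π.Normal] (hc : Fn res (JJ π ρ L) c) (hne : ∃ x ∈ JJ π ρ L, c x ≠ 0)
    (hβ : ∀ (i : ι) (a b : Fin (d i)), ∃ x : Mt n A,
      ((x, Pi.single i (Matrix.single a b (1 : A))) : Mt n A × EL d A) ∈ BB π ρ L)
    {F : Γ} {γ γi : Mt n A × EL d A} (hγ : γ ∈ BB π ρ L) (hγi : γi ∈ BB π ρ L)
    (hγF : γ.2 = (pair ρ L F).2) (h1 : γ * γi = 1) (h2 : γi * γ = 1) {s : κ}
    (hs : ∀ x ∈ JJ π ρ L, c ((γi.1 * (ρ F : Mt n A)) * x * ((ρ F⁻¹ : Mt n A) * γ.1)) = s * c x) :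
    ∃ (i j : ι) (a : π → Matrix (Fin (d i)) (Fin (d j)) κ)
      (m : Matrix (Fin (d i)) (Fin (d j)) κ), Wt res ⊥ π ρ L F s i j a m := by
  classical
  choose β hβ' using hβ
  -- the unit
  have he : (1 : Mt n A) - ∑ i, ∑ a, β i a a ∈ JJ π ρ L := by
    have e1 : ∑ i, ∑ a, ((β i a a, Pi.single i (Matrix.single a a (1 : A))) :
        Mt n A × EL d A) ∈ BB π ρ L :=
      Submodule.sum_mem _ fun i _ => Submodule.sum_mem _ fun a _ => hβ' i a a
    have e2 := sub_JJ one_mem e1 (by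
      rw [Prod.snd_sum]
      simp only [Prod.snd_sum]
      rw [sum_single_one]
      rfl)
    rw [Prod.fst_sum] at e2
    simp only [Prod.fst_sum] at e2
    exact e2
  obtain ⟨x, hx, hcx⟩ := hne
  have hβx : ∀ i a, β i a a * x ∈ JJ π ρ L := fun i a => mul_JJ (hβ' i a a) hx
  have hβx' : ∀ i a j b, β i a a * (x * β j b b) ∈ JJ π ρ L := fun i a j b =>
    mul_JJ (hβ' i a a) (JJ_mul (hβ' j b b) hx)
  have e1 : ∀ y ∈ JJ π ρ L, c y = ∑ j, ∑ b, c (y * β j b b) := by
    intro y hy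
    have e2 : y = y * (1 - ∑ i, ∑ a, β i a a) + ∑ i, ∑ a, y * β i a a := by
      simp only [mul_sub, mul_one, Finset.mul_sum]
      rw [sub_add_cancel]
    conv_lhs => rw [e2]
    rw [hc.add _ (JJ_JJ (Submodule.mul_mem_mul hy he)) _ (Submodule.sum_mem _ fun i _ =>
      Submodule.sum_mem _ fun a _ => JJ_mul (hβ' i a a) hy), hc.mul _ hy _ he, zero_add,
      hc.sum _ _ fun i _ => Submodule.sum_mem _ fun a _ => JJ_mul (hβ' i a a) hy]
    exact Finset.sum_congr rfl fun i _ => hc.sum _ _ fun a _ => JJ_mul (hβ' i a a) hy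
  have e2 : c x = ∑ i, ∑ a, c (β i a a * x) := by
    have e2 : x = (1 - ∑ i, ∑ a, β i a a) * x + ∑ i, ∑ a, β i a a * x := by
      simp only [sub_mul, one_mul, Finset.sum_mul]
      rw [sub_add_cancel]
    conv_lhs => rw [e2]
    rw [hc.add _ (JJ_JJ (Submodule.mul_mem_mul he hx)) _ (Submodule.sum_mem _ fun i _ =>
      Submodule.sum_mem _ fun a _ => hβx i a), hc.mul _ he _ hx, zero_add,
      hc.sum _ _ fun i _ => Submodule.sum_mem _ fun a _ => hβx i a]
    exact Finset.sum_congr rfl fun i _ => hc.sum _ _ fun a _ => hβx i a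
  obtain ⟨i, p, j, q, hpq⟩ : ∃ (i : ι) (p : Fin (d i)) (j : ι) (q : Fin (d j)),
      c (β i p p * (x * β j q q)) ≠ 0 := by
    by_contra hcon
    push Not at hcon
    apply hcx
    rw [e2]
    refine Finset.sum_eq_zero fun i _ => Finset.sum_eq_zero fun a _ => ?_
    rw [e1 _ (hβx i a)]
    refine Finset.sum_eq_zero fun j _ => Finset.sum_eq_zero fun b _ => ?_
    rw [mul_assoc]
    exact hcon i a j b
  let al : Fin (d i) → Mt n A := fun a => β i p a
  let bt : Fin (d j) → Mt n A := fun a => β j a q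
  have hal : ∀ a, ((al a, Pi.single i (Matrix.single p a (1 : A))) : Mt n A × EL d A) ∈
    BB π ρ L := fun a => hβ' i p a
  have hbt : ∀ a, ((bt a, Pi.single j (Matrix.single a q (1 : A))) : Mt n A × EL d A) ∈
    BB π ρ L := fun a => hβ' j a q
  set T : Mt n A := γi.1 * (ρ F : Mt n A) with hT
  set T' : Mt n A := (ρ F⁻¹ : Mt n A) * γ.1 with hT'
  have hFF : pair ρ L F * pair ρ L F⁻¹ = 1 := by rw [← pair_mul, mul_inv_cancel, pair_one]
  have hFF' : pair ρ L F⁻¹ * pair ρ L F = 1 := by rw [← pair_mul, inv_mul_cancel, pair_one]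
  have hTT : T' * T = 1 := by
    have e3 : γ.1 * γi.1 = 1 := congrArg Prod.fst h1
    have e4 : (ρ F⁻¹ : Mt n A) * (ρ F : Mt n A) = 1 := congrArg Prod.fst hFF'
    calc T' * T = (ρ F⁻¹ : Mt n A) * (γ.1 * γi.1) * (ρ F : Mt n A) := by
          rw [hT, hT']
          simp only [mul_assoc]
      _ = 1 := by rw [e3, mul_one, e4]
  have h2' : γi.2 * (pair ρ L F).2 = 1 := by
    rw [← hγF]
    exact congrArg Prod.snd h2
  have hF2 : (pair ρ L F⁻¹).2 * (pair ρ L F).2 = 1 := congrArg Prod.snd hFF'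
  have hF2' : (pair ρ L F).2 * (pair ρ L F⁻¹).2 = 1 := congrArg Prod.snd hFF
  -- the conjugation
  have htau : ∀ b : Mt n A × EL d A, γi * (pair ρ L F * b * pair ρ L F⁻¹) * γ =
      (T * b.1 * T', b.2) := by
    intro b
    refine Prod.ext ?_ ?_
    · change γi.1 * ((ρ F : Mt n A) * b.1 * (ρ F⁻¹ : Mt n A)) * γ.1 = _
      rw [hT, hT']
      simp only [mul_assoc]
    · change γi.2 * ((pair ρ L F).2 * b.2 * (pair ρ L F⁻¹).2) * γ.2 = b.2
      rw [hγF]
      calc γi.2 * ((pair ρ L F).2 * b.2 * (pair ρ L F⁻¹).2) * (pair ρ L F).2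
          = (γi.2 * (pair ρ L F).2) * b.2 * ((pair ρ L F⁻¹).2 * (pair ρ L F).2) := by
            simp only [mul_assoc]
        _ = b.2 := by rw [h2', hF2, one_mul, mul_one]
  have hτ : ∀ b ∈ BB π ρ L, ((T * b.1 * T', b.2) : Mt n A × EL d A) ∈ BB π ρ L := by
    intro b hb
    rw [← htau]
    exact mul_mem (mul_mem hγi (conj_mem F hb)) hγ
  -- the matrices
  set D : Mt n A × EL d A → Matrix (Fin (d i)) (Fin (d j)) κ := DD c i j al bt with hD
  set m' : Matrix (Fin (d i)) (Fin (d j)) κ :=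
    Matrix.of fun a' a => c (al a' * (T * bt a * T' - bt a)) with hm'
  have hmap : ∀ {r : ℕ} (x y : Mt r A), (x * y).map res = x.map res * y.map res := fun x y =>
    Matrix.map_mul
  have hGa : (γi.2 i).map res * (γ.2 i).map res = 1 := by
    rw [← hmap]
    have e3 : γi.2 i * γ.2 i = 1 := congrFun (congrArg Prod.snd h2) i
    rw [e3]
    exact Matrix.map_one _ (map_zero _) (map_one _)
  have hGb : (γi.2 j).map res * (γ.2 j).map res = 1 := by
    rw [← hmap]
    have e3 : γi.2 j * γ.2 j = 1 := congrFun (congrArg Prod.snd h2) j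
    rw [e3]
    exact Matrix.map_one _ (map_zero _) (map_one _)
  have hDγ : D γ = -((γ.2 i).map res * D γi * (γ.2 j).map res) := by
    have e3 := DD_mul hc hal hbt hγ hγi
    rw [h1, DD_one hc hal hbt] at e3
    have e4 := congrArg (fun z => z * (γ.2 j).map res) e3
    change (0 : Matrix (Fin (d i)) (Fin (d j)) κ) * (γ.2 j).map res = _ at e4
    rw [Matrix.zero_mul, Matrix.add_mul, Matrix.mul_assoc (D γ), hGb, Matrix.mul_one] at e4
    exact (neg_eq_of_add_eq_zero_right e4.symm).symm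
  refine ⟨i, j, fun g => D (pair ρ L g), (γ.2 i).map res * D γi -
    (γ.2 i).map res * m' * (γi.2 j).map res, ?_⟩
  constructor
  · intro g h
    change D (pair ρ L ((g * h : π) : Γ)) = _
    rw [Subgroup.coe_mul, pair_mul, hD, DD_mul hc hal hbt (pair_mem g) (pair_mem h)]
    rfl
  · intro g hg hg'
    have e3 : pair ρ L g = 1 := by
      refine Prod.ext ?_ ?_
      · ext u v
        exact sub_eq_zero.1 (hg u v)
      · funext e
        ext u v
        exact sub_eq_zero.1 (hg' e u v)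
    change D (pair ρ L g) = 0
    rw [e3]
    exact DD_one hc hal hbt
  · intro g h hgh
    change D (pair ρ L h) = s • (_ * D (pair ρ L g) * _) + _
    have e3 : pair ρ L h = γ * ((T * (pair ρ L g).1 * T', (pair ρ L g).2) * γi) := by
      rw [← htau, hgh, pair_mul, pair_mul]
      calc pair ρ L F * pair ρ L g * pair ρ L F⁻¹
          = 1 * (pair ρ L F * pair ρ L g * pair ρ L F⁻¹) * 1 := by rw [one_mul, mul_one]
        _ = (γ * γi) * (pair ρ L F * pair ρ L g * pair ρ L F⁻¹) * (γ * γi) := by rw [h1]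
        _ = _ := by simp only [mul_assoc]
    have hLi : (L i F : Mt (d i) A) = γ.2 i := by rw [hγF]; rfl
    have hLj' : (L j F⁻¹ : Mt (d j) A) = γi.2 j := by
      have e4 : (pair ρ L F⁻¹).2 = γi.2 := by
        calc (pair ρ L F⁻¹).2 = (γi.2 * (pair ρ L F).2) * (pair ρ L F⁻¹).2 := by
              rw [h2', one_mul]
          _ = γi.2 := by rw [mul_assoc, hF2', mul_one]
      rw [← e4]
      rfl
    have hLh : ∀ e, (L e h : Mt (d e) A).map res = (γ.2 e).map res *
        (L e g : Mt (d e) A).map res * (γi.2 e).map res := by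
      intro e
      have e4 : (pair ρ L h).2 e = γ.2 e * ((pair ρ L g).2 e * γi.2 e) := by
        rw [e3]
        rfl
      change ((pair ρ L h).2 e).map res = _
      rw [e4, hmap, hmap, ← Matrix.mul_assoc]
      rfl
    rw [e3, hD, DD_mul hc hal hbt hγ (mul_mem (hτ _ (pair_mem g)) hγi),
      DD_mul hc hal hbt (hτ _ (pair_mem g)) hγi, DD_tau hc hal hbt hTT hτ hs (pair_mem g),
      ← hD, hDγ, ← hm', hLh i, hLh j, hLi, hLj']
    change (γ.2 i).map res * ((L i g : Mt (d i) A).map res * D γi +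
      (s • D (pair ρ L g) - ((L i g : Mt (d i) A).map res * m' -
        m' * (L j g : Mt (d j) A).map res)) * (γi.2 j).map res) +
      -((γ.2 i).map res * D γi * (γ.2 j).map res) *
        ((L j g : Mt (d j) A) * γi.2 j).map res = _
    rw [hmap]
    have hGa' : ∀ Z : Matrix (Fin (d i)) (Fin (d j)) κ,
        (γi.2 i).map res * ((γ.2 i).map res * Z) = Z := fun Z => by
      rw [← Matrix.mul_assoc, hGa, Matrix.one_mul]
    have hGb' : ∀ Z : Matrix (Fin (d j)) (Fin (d j)) κ,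
        (γi.2 j).map res * ((γ.2 j).map res * Z) = Z := fun Z => by
      rw [← Matrix.mul_assoc, hGb, Matrix.one_mul]
    simp only [Matrix.mul_add, Matrix.add_mul, Matrix.mul_sub, Matrix.sub_mul, Matrix.neg_mul,
      Matrix.mul_assoc, hGa', hGb', Matrix.smul_mul, Matrix.mul_smul]
    abel
  · intro M
    by_contra hcon
    push Not at hcon
    apply hpq
    exact not_cob hc hal hbt hcon hx

end Pool.Agent.H853.BL
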